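import Pool.Agent.Helper76.RT.Low
import Pool.Agent.Helper10.GT.Machine

/-!
Random tests (MP_b6562f_lc): the machine for one polynomial, which may make mistakes.
-/

set_option autoImplicit false

namespace Pool.RT

open Finset hiding sup
open MvPolynomial Pool.SDL Pool.Agent.SDet Pool.Agent.Helper76 Pool.Agent.Helper76.CDET
open scoped ENNReal BigOperators

section
variable {F : Type} [Field F] {V Ya : Type} [DecidableEq V]

/-- the shifted spaces of all families of coefficients of degree `D` are small -/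
def SmallK (f : MvPolynomial (V ⊕ Ya) F) (D l0 : ℕ) (Q R : ℝ≥0∞) : Prop :=
  ∀ (Xt Yt C : Type) [Fintype Xt] [Fintype C] (κ : V → Option (Option (Xt ⊕ Yt)))
    (yk : C → Yt →₀ ℕ), (∀ c, (yk c).degree = D) → ∃ (E : Type) (_ : Fintype E),
    Q ^ l0 * ((1 - Q) ^ (Fintype.card Xt + Fintype.card E + 1) * ∑' l : ℕ, Q ^ l *
      (Module.finrank (Lf F (V ⊕ Ya)) (Wl (K := Lf F (V ⊕ Ya)) E
        (fun c => coeff (yk c) (GT.Th _ Xt Yt (Psi F (CDET.ext Ya κ) f))) l) : ℝ≥0∞)) ≤ R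

/-- sums of determinants have small shifted spaces -/
theorem smallK_det [Fintype V] {r m : ℕ} (f : MvPolynomial (V ⊕ Ya) F) (s : Fin r → ℕ)
    (hs : ∀ i, s i ≤ m) (A : ∀ i, Matrix (Fin (s i)) (Fin (s i)) (MvPolynomial (V ⊕ Ya) F))
    (hA : ∀ i p q, ∀ μ ∈ (A i p q).support, ∑ e, μ (Sum.inl e) ≤ 1)
    (hf : f = ∑ i, (A i).det) (D : ℕ) (Q : ℝ≥0∞) (hQ : Q < 1) :
    SmallK f D 0 Q (r * (∑ g : Fin (m - D) ↪o Fin m, (1 - Q) ^ rho g) ^ 2) := by
  classical
  intro Xt Yt C _ _ κ yk hyk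
  set κ' := CDET.ext Ya κ with hκ'
  refine ⟨Fin m × Fin m, inferInstance, ?_⟩
  rw [pow_zero, one_mul]
  have hmat : ∀ i, ∃ A' : Matrix (Fin m) (Fin m) (MvPolynomial (Xt ⊕ Yt) (Lf F (V ⊕ Ya))),
      (∀ p q, (A' p q).totalDegree ≤ 1) ∧ A'.det = Psi F κ' (A i).det := by
    intro i
    rw [RingHom.map_det]
    refine exists_pad (hs i) _ fun p q => ?_
    rw [RingHom.mapMatrix_apply, Matrix.map_apply]
    exact totalDegree_Psi_le κ' _ 1 fun μ hμ => (degree_push_le _ μ).trans (hA i p q μ hμ)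
  choose A' hA' hdet using hmat
  have hL : ∀ c, coeff (yk c) (GT.Th _ Xt Yt (Psi F κ' f)) ∈
      ⨆ i, detSpan ((A' i).map (eps0 (Lf F (V ⊕ Ya)) Xt Yt)) (m - D) := by
    intro c
    rw [hf, map_sum, map_sum, coeff_sum]
    refine Submodule.sum_mem _ fun i _ => ?_
    rw [← hdet i, ← hyk c]
    exact Submodule.mem_iSup_of_mem i (GT.coeff_det_mem (A' i) (hA' i) (yk c))
  have hAff : ∀ i p q, (((A' i).map (eps0 (Lf F (V ⊕ Ya)) Xt Yt)) p q).totalDegree ≤ 1 := by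
    intro i p q
    rw [Matrix.map_apply]
    exact (eps0_totalDegree _).trans (hA' i p q)
  exact up_series _ _ hAff hL Q hQ

/-- THE MACHINE FOR ONE POLYNOMIAL. `μ c` is a monomial of `f` inside the target set of the choice
`c`; the sets `M' c` consist of elements of `M c` which `f` really needs. -/
theorem machineK {Xt Yt C : Type} [Fintype V] [Fintype Xt] [DecidableEq Xt] [Fintype Yt]
    [Fintype C] (f : MvPolynomial (V ⊕ Ya) F)
    (X : Xt → V) (Y : Yt → V) (Z : Finset V) (hinj : Function.Injective (Sum.elim X Y))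
    (hX : ∀ x, X x ∉ Z) (hY : ∀ y, Y y ∉ Z)
    (M' M : C → Finset Xt) (μ : C → (V ⊕ Ya) →₀ ℕ) (hμ : ∀ c, μ c ∈ f.support)
    (hsub : ∀ c, ∀ e ∈ CDET.sup (μ c), e ∈ Z ∨ (∃ x ∈ M c, e = X x) ∨ ∃ y, e = Y y)
    (h1 : ∀ c (S : Finset V), restr S f ≠ 0 →
      (∀ e ∈ S, e ∈ Z ∨ (∃ x, e = X x) ∨ ∃ y, e = Y y ∧ μ c (Sum.inl (Y y)) ≠ 0) →
      ∀ x ∈ M' c, X x ∈ S)
    (D : ℕ) (hD : ∀ c, ∑ y, μ c (Sum.inl (Y y)) = D) {l0 : ℕ} {Q R : ℝ≥0∞} (hQ : Q < 1)
    (hR : SmallK f D l0 Q R)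
    [∀ c, DecidablePred fun u : Xt → ℕ => Good M' M c u] :
    Q ^ l0 * ((1 - Q) ^ Fintype.card Xt *
      ∑ c, ∑' u : Xt → ℕ, (if Good M' M c u then Q ^ (∑ x, u x) else 0)) ≤ R := by
  classical
  set κ' := CDET.ext Ya (kap X Y Z) with hκ'
  set yk : C → Yt →₀ ℕ := fun c => Finsupp.equivFunOnFinite.symm fun y => μ c (Sum.inl (Y y))
    with hyk
  have hykD : ∀ c, (yk c).degree = D := by
    intro c
    rw [Finsupp.degree_eq_sum]
    exact hD c
  set G : C → MvPolynomial Xt (Lf F (V ⊕ Ya)) :=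
    fun c => coeff (yk c) (GT.Th _ _ _ (Psi F κ' f)) with hG
  have hcoeff : ∀ c T, coeff T (G c) = coeff (Finsupp.mapDomain Sum.inl T +
      Finsupp.mapDomain Sum.inr (yk c)) (Psi F κ' f) := fun c T => GT.coeff_Th (yk c) T _
  have hlow : ∀ c T, coeff T (G c) ≠ 0 → M' c ⊆ T.support := by
    intro c T hT
    rw [hcoeff] at hT
    obtain ⟨ν, hν, hνd, hνp⟩ := exists_of_coeff_Psi_ne_zero κ' f _ hT
    have hS := prop_sup f (fun S => restr S f ≠ 0) (fun _ => Iff.rfl) ν hν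
    have hx : ∀ x, ν (Sum.inl (X x)) = T x := by
      intro x
      rw [← GT.push_X X Y Z hinj ν x, ← hκ', hνp, Finsupp.add_apply,
        Finsupp.mapDomain_apply Sum.inl_injective, Finsupp.mapDomain_of_notMem_range _ _ (by simp),
        add_zero]
    have hy : ∀ y, ν (Sum.inl (Y y)) = μ c (Sum.inl (Y y)) := by
      intro y
      rw [← GT.push_Y X Y Z hinj ν y, ← hκ', hνp, Finsupp.add_apply,
        Finsupp.mapDomain_apply Sum.inr_injective, Finsupp.mapDomain_of_notMem_range _ _ (by simp),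
        zero_add]
      rfl
    have h4 := h1 c (CDET.sup ν) hS (by
      intro e he
      rcases (GT.dead_iff X Y Z hinj ν).1 hνd e he with ⟨x, rfl⟩ | ⟨y, rfl⟩ | hz
      · exact Or.inr (Or.inl ⟨x, rfl⟩)
      · refine Or.inr (Or.inr ⟨y, rfl, ?_⟩)
        rw [← hy]
        exact (Finset.mem_filter.1 he).2
      · exact Or.inl hz)
    intro x hxM
    have h5 := h4 x hxM
    rw [CDET.sup, Finset.mem_filter, hx] at h5
    exact Finsupp.mem_support_iff.2 h5.2
  have hself : ∀ c, ∃ T : Xt →₀ ℕ, coeff T (G c) ≠ 0 ∧ T.support ⊆ M c := by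
    intro c
    refine ⟨Finsupp.equivFunOnFinite.symm fun x => μ c (Sum.inl (X x)), ?_, ?_⟩
    · rw [hcoeff]
      have hdμ : ∀ v, κ' v = none → μ c v = 0 := by
        rw [hκ', GT.dead_iff X Y Z hinj]
        intro e he
        rcases hsub c e he with h | ⟨x, _, h⟩ | ⟨y, h⟩
        · exact Or.inr (Or.inr h)
        · exact Or.inl ⟨x, h.symm⟩
        · exact Or.inr (Or.inl ⟨y, h.symm⟩)
      have hpush : push κ' (μ c) = Finsupp.mapDomain Sum.inl
          (Finsupp.equivFunOnFinite.symm fun x => μ c (Sum.inl (X x))) +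
          Finsupp.mapDomain Sum.inr (yk c) := by
        ext v
        rcases v with x | y
        · rw [hκ', GT.push_X X Y Z hinj, Finsupp.add_apply,
            Finsupp.mapDomain_apply Sum.inl_injective,
            Finsupp.mapDomain_of_notMem_range _ _ (by simp), add_zero]
          rfl
        · rw [hκ', GT.push_Y X Y Z hinj, Finsupp.add_apply,
            Finsupp.mapDomain_apply Sum.inr_injective,
            Finsupp.mapDomain_of_notMem_range _ _ (by simp), zero_add]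
          rfl
      rw [← hpush]
      refine coeff_Psi_ne_zero κ' f (μ c) (hμ c) hdμ ?_
      intro ν _ hνd hνp hνr
      exact GT.eq_of_push X Y Z hinj hX hY ν (μ c) hνd hdμ hνp hνr
    · intro x hx
      rw [Finsupp.mem_support_iff] at hx
      have hx' : μ c (Sum.inl (X x)) ≠ 0 := hx
      rcases hsub c (X x) (by rw [CDET.sup, Finset.mem_filter]; exact ⟨Finset.mem_univ _, hx'⟩)
        with h | ⟨x', hx', h⟩ | ⟨y, h⟩
      · exact absurd h (hX x)
      · have h2 : (Sum.inl x : Xt ⊕ Yt) = Sum.inl x' := hinj h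
        rw [Sum.inl.injEq] at h2
        rw [h2]
        exact hx'
      · have h2 : (Sum.inl x : Xt ⊕ Yt) = Sum.inr y := hinj h
        simp at h2
  obtain ⟨E, hE, hRE⟩ := hR Xt Yt C (kap X Y Z) yk hykD
  exact (mul_le_mul' le_rfl (low_series E G M' M hlow hself Q hQ)).trans hRE

end

section
variable {σ C : Type} [Fintype σ] [DecidableEq σ] [Fintype C] [DecidableEq C]

/-- the union bound with two sets -/
theorem union_bound (M' M : C → Finset σ) (c : C) (Q : ℝ≥0∞) (hQ : Q < 1)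
    [DecidablePred fun u : σ → ℕ => Good M' M c u] :
    1 ≤ (1 - Q) ^ Fintype.card σ *
      ∑' u : σ → ℕ, (if Good M' M c u then Q ^ (∑ s, u s) else 0) +
      ∑ c' ∈ Finset.univ.erase c, Q ^ (M' c' \ M c).card := by
  classical
  have h1 := tsum_all (S := σ) Q
  have h2 : ∀ u : σ → ℕ, Q ^ (∑ s, u s) ≤ (if Good M' M c u then Q ^ (∑ s, u s) else 0) +
      ∑ c' ∈ Finset.univ.erase c,
        (if ∀ s ∈ M' c' \ M c, 1 ≤ u s then Q ^ (∑ s, u s) else 0) := by
    intro u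
    by_cases hu : Good M' M c u
    · rw [if_pos hu]
      exact le_self_add
    · rw [if_neg hu, zero_add]
      unfold Good at hu
      push Not at hu
      obtain ⟨c', hc', h3⟩ := hu
      have h4 : ∀ s ∈ M' c' \ M c, 1 ≤ u s := by
        intro s hs
        rw [Finset.mem_sdiff] at hs
        exact Nat.one_le_iff_ne_zero.2 (h3 s hs.1 hs.2)
      calc Q ^ (∑ s, u s) = (if ∀ s ∈ M' c' \ M c, 1 ≤ u s then Q ^ (∑ s, u s) else 0) := by
            rw [if_pos h4]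
        _ ≤ _ := Finset.single_le_sum (f := fun c' => (if ∀ s ∈ M' c' \ M c, 1 ≤ u s then
            Q ^ (∑ s, u s) else 0)) (fun _ _ => zero_le)
            (Finset.mem_erase.2 ⟨hc', Finset.mem_univ _⟩)
  calc (1 : ℝ≥0∞) = (1 - Q) ^ Fintype.card σ * ∑' u : σ → ℕ, Q ^ (∑ s, u s) := by
        rw [h1, GT.geom_cancel Q hQ]
    _ ≤ (1 - Q) ^ Fintype.card σ * ∑' u : σ → ℕ,
        ((if Good M' M c u then Q ^ (∑ s, u s) else 0) +
          ∑ c' ∈ Finset.univ.erase c,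
            (if ∀ s ∈ M' c' \ M c, 1 ≤ u s then Q ^ (∑ s, u s) else 0)) := by
        gcongr with u
        exact h2 u
    _ = _ := by
        rw [ENNReal.tsum_add, mul_add, Summable.tsum_finsetSum fun c _ => ENNReal.summable,
          Finset.mul_sum]
        congr 1
        exact Finset.sum_congr rfl fun c' _ => GT.tsum_pos_on _ Q hQ

/-- for a code, every choice is good with probability at least one half -/
theorem code_half (M' M : C → Finset σ) (Q : ℝ≥0∞) (hQ : Q < 1) (T : ℕ)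
    (hcode : ∀ c c', c' ≠ c → T ≤ (M' c' \ M c).card)
    (hT : (Fintype.card C : ℝ≥0∞) * Q ^ T ≤ 1 / 2)
    [∀ c, DecidablePred fun u : σ → ℕ => Good M' M c u] :
    (Fintype.card C : ℝ≥0∞) ≤ 2 * ((1 - Q) ^ Fintype.card σ *
      ∑ c, ∑' u : σ → ℕ, (if Good M' M c u then Q ^ (∑ s, u s) else 0)) := by
  classical
  have hone : ∀ c, (1 / 2 : ℝ≥0∞) ≤ (1 - Q) ^ Fintype.card σ *
      ∑' u : σ → ℕ, (if Good M' M c u then Q ^ (∑ s, u s) else 0) := by
    intro c
    have h1 := union_bound M' M c Q hQ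
    have h2 : ∑ c' ∈ Finset.univ.erase c, Q ^ (M' c' \ M c).card ≤ 1 / 2 := by
      calc ∑ c' ∈ Finset.univ.erase c, Q ^ (M' c' \ M c).card
          ≤ ∑ _c' ∈ Finset.univ.erase c, Q ^ T := by
            refine Finset.sum_le_sum fun c' hc' => ?_
            exact pow_le_pow_of_le_one zero_le hQ.le (hcode c c' (Finset.ne_of_mem_erase hc'))
        _ ≤ ∑ _c' : C, Q ^ T := Finset.sum_le_sum_of_subset (Finset.erase_subset _ _)
        _ = (Fintype.card C : ℝ≥0∞) * Q ^ T := by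
            rw [Finset.sum_const, Finset.card_univ, nsmul_eq_mul]
        _ ≤ 1 / 2 := hT
    have h3 : (1 : ℝ≥0∞) ≤ (1 - Q) ^ Fintype.card σ *
      ∑' u : σ → ℕ, (if Good M' M c u then Q ^ (∑ s, u s) else 0) + 1 / 2 :=
      h1.trans (add_le_add_right h2 _)
    have h5 : (1 / 2 : ℝ≥0∞) + 1 / 2 ≤ (1 - Q) ^ Fintype.card σ *
      ∑' u : σ → ℕ, (if Good M' M c u then Q ^ (∑ s, u s) else 0) + 1 / 2 := by
      rw [ENNReal.add_halves]
      exact h3
    have h6 : (1 / 2 : ℝ≥0∞) ≠ ∞ := by simp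
    exact (ENNReal.add_le_add_iff_right h6).1 h5
  rw [Finset.mul_sum]
  calc (Fintype.card C : ℝ≥0∞) = 2 * ∑ _c : C, (1 / 2 : ℝ≥0∞) := by
        rw [Finset.sum_const, Finset.card_univ, nsmul_eq_mul, ← mul_assoc, mul_comm 2,
          mul_assoc, ENNReal.mul_div_cancel (by simp) (by simp), mul_one]
    _ ≤ _ := by
        gcongr with c
        exact hone c

end

/-- THE BOUND FOR CODES -/
theorem code_bound {F : Type} [Field F] {V Ya : Type} [DecidableEq V]
    {Xt Yt C : Type} [Fintype V] [Fintype Xt] [DecidableEq Xt] [Fintype Yt]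
    [Fintype C] (f : MvPolynomial (V ⊕ Ya) F)
    (X : Xt → V) (Y : Yt → V) (Z : Finset V) (hinj : Function.Injective (Sum.elim X Y))
    (hX : ∀ x, X x ∉ Z) (hY : ∀ y, Y y ∉ Z)
    (M' M : C → Finset Xt) (μ : C → (V ⊕ Ya) →₀ ℕ) (hμ : ∀ c, μ c ∈ f.support)
    (hsub : ∀ c, ∀ e ∈ CDET.sup (μ c), e ∈ Z ∨ (∃ x ∈ M c, e = X x) ∨ ∃ y, e = Y y)
    (h1 : ∀ c (S : Finset V), restr S f ≠ 0 →
      (∀ e ∈ S, e ∈ Z ∨ (∃ x, e = X x) ∨ ∃ y, e = Y y ∧ μ c (Sum.inl (Y y)) ≠ 0) →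
      ∀ x ∈ M' c, X x ∈ S)
    (D : ℕ) (hD : ∀ c, ∑ y, μ c (Sum.inl (Y y)) = D) {l0 : ℕ} {Q R : ℝ≥0∞} (hQ : Q < 1)
    (hR : SmallK f D l0 Q R) (T : ℕ)
    (hcode : ∀ c c', c' ≠ c → T ≤ (M' c' \ M c).card)
    (hT : (Fintype.card C : ℝ≥0∞) * Q ^ T ≤ 1 / 2) :
    Q ^ l0 * (Fintype.card C : ℝ≥0∞) ≤ 2 * R := by
  classical
  have h3 := machineK f X Y Z hinj hX hY M' M μ hμ hsub h1 D hD hQ hR
  have h4 := code_half M' M Q hQ T hcode hT
  calc Q ^ l0 * (Fintype.card C : ℝ≥0∞)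
      ≤ Q ^ l0 * (2 * ((1 - Q) ^ Fintype.card Xt *
      ∑ c, ∑' u : Xt → ℕ, (if Good M' M c u then Q ^ (∑ s, u s) else 0))) := by gcongr
    _ = 2 * (Q ^ l0 * ((1 - Q) ^ Fintype.card Xt *
      ∑ c, ∑' u : Xt → ℕ, (if Good M' M c u then Q ^ (∑ s, u s) else 0))) := by ring
    _ ≤ 2 * R := by gcongr

end Pool.RT
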