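import Pool.Agent.Helper76.RT.Core

/-!
The deterministic part of the core (MP_b6562f_lc): one polynomial, a set `G` of good choices.
-/

set_option autoImplicit false

namespace Pool.RT

open Finset hiding sup
open MvPolynomial Pool.SDL Pool.Agent.SDet Pool.Agent.Helper76 Pool.Agent.Helper76.CDET
open scoped ENNReal BigOperators

section
variable {F : Type} [Field F] {V Ya : Type} [DecidableEq V] [Fintype V]

/-- CORE for one polynomial `f`. For the good choices `c ∈ G` the polynomial `f` has a monomial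
inside `Z`, `X (M c)`, `Y`, and needs all the elements of `M' c` once its part in `Y` is that of
this monomial. -/
theorem core_det {C Xt Yt : Type} [Finite C] [Fintype Xt] [DecidableEq Xt] [Fintype Yt]
    (f : MvPolynomial (V ⊕ Ya) F)
    (X : Xt → V) (Y : Yt → V) (Z : Finset V)
    (hinj : Function.Injective (Sum.elim X Y))
    (hX : ∀ x, X x ∉ Z) (hY : ∀ y, Y y ∉ Z)
    (M' M : C → Finset Xt) (G : Finset C) (μ : C → (V ⊕ Ya) →₀ ℕ)
    (hμ : ∀ c ∈ G, μ c ∈ f.support)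
    (hsub : ∀ c ∈ G, ∀ e ∈ CDET.sup (μ c), e ∈ Z ∨ (∃ x ∈ M c, e = X x) ∨ ∃ y, e = Y y)
    (h1 : ∀ c ∈ G, ∀ S : Finset V, restr S f ≠ 0 →
      (∀ e ∈ S, e ∈ Z ∨ (∃ x, e = X x) ∨ ∃ y, e = Y y ∧ μ c (Sum.inl (Y y)) ≠ 0) →
      ∀ x ∈ M' c, X x ∈ S)
    (L : ℕ) (hL : ∀ c ∈ G, ∑ y, μ c (Sum.inl (Y y)) ≤ L)
    (near : C → C → Prop) (hrefl : ∀ c, near c c) (hsymm : ∀ c c', near c c' → near c' c)
    (Vb T0 : ℕ) (hvol : ∀ c ∈ G, ∀ A ⊆ G, (∀ c' ∈ A, near c c') → A.card ≤ Vb)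
    (hdist : ∀ c ∈ G, ∀ c' ∈ G, ¬ near c c' → T0 ≤ (M' c' \ M c).card)
    {l0 : ℕ} {Q R : ℝ≥0∞} (hQ : Q < 1) (hR : ∀ D' ≤ L, SmallK f D' l0 Q R)
    (hT0 : (G.card : ℝ≥0∞) * Q ^ T0 ≤ 1 / 2) :
    Q ^ l0 * (G.card : ℝ≥0∞) ≤ 2 * R * ((L + 1) * Vb : ℕ) := by
  classical
  obtain ⟨D', hD', G', hG', hG'D, hcard1⟩ := exists_class G
    (fun c => ∑ y, μ c (Sum.inl (Y y))) L (fun c hc => hL c hc)
  obtain ⟨K, hK, hKcode, hcard2⟩ := exists_code near hrefl hsymm Vb G'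
    (fun c hc A hA hA' => hvol c (hG' hc) A (hA.trans hG') hA')
  have hKG : ∀ c : K, c.1 ∈ G := fun c => hG' (hK c.2)
  have hb := code_bound (C := K) f X Y Z hinj hX hY
    (fun c => M' c.1) (fun c => M c.1) (fun c => μ c.1)
    (fun c => hμ c.1 (hKG c)) (fun c => hsub c.1 (hKG c)) (fun c => h1 c.1 (hKG c))
    D' (fun c => hG'D c.1 (hK c.2)) hQ (hR D' hD') T0
    (by
      intro c c' hne
      exact hdist c.1 (hKG c) c'.1 (hKG c')
        (hKcode c.1 c.2 c'.1 c'.2 (fun h => hne (Subtype.ext h))))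
    (by
      refine le_trans ?_ hT0
      gcongr
      rw [Fintype.card_coe]
      exact Finset.card_le_card (hK.trans hG'))
  rw [Fintype.card_coe] at hb
  have h8 : G.card ≤ (L + 1) * Vb * K.card := by
    calc G.card ≤ (L + 1) * G'.card := hcard1
      _ ≤ (L + 1) * (Vb * K.card) := Nat.mul_le_mul_left _ hcard2
      _ = (L + 1) * Vb * K.card := by ring
  calc Q ^ l0 * (G.card : ℝ≥0∞) ≤ Q ^ l0 * (((L + 1) * Vb * K.card : ℕ) : ℝ≥0∞) := by
        gcongr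
    _ = (Q ^ l0 * (K.card : ℝ≥0∞)) * ((L + 1) * Vb : ℕ) := by
        rw [Nat.cast_mul]
        ring
    _ ≤ 2 * R * ((L + 1) * Vb : ℕ) := by gcongr

end

end Pool.RT
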