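import Pool.Agent.Helper76.RT.Mach

/-!
Random tests (MP_b6562f_lc): two-sided error. Bad edges, Markov, codes.
-/

set_option autoImplicit false

namespace Pool.RT

open Finset hiding sup
open MvPolynomial Pool.SDL Pool.Agent.SDet Pool.Agent.Helper76 Pool.Agent.Helper76.CDET
open scoped ENNReal BigOperators

section comb

/-- probability of an event in a finite space with weights `w` -/
noncomputable def Pr {I : Type} [Fintype I] (w : I → ℝ) (E : I → Prop) : ℝ :=
  open Classical in ∑ i, w i * (if E i then 1 else 0)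

theorem Pr_eq {I : Type} [Fintype I] (w : I → ℝ) (E : I → Prop) [DecidablePred E] :
    Pr w E = ∑ i, w i * (if E i then 1 else 0) := by
  unfold Pr
  refine Finset.sum_congr rfl fun i _ => ?_
  congr

theorem Pr_not {I : Type} [Fintype I] (w : I → ℝ) (hw1 : ∑ i, w i = 1) (E : I → Prop) :
    Pr w (fun i => ¬ E i) = 1 - Pr w E := by
  classical
  rw [Pr_eq, Pr_eq]
  calc ∑ i, w i * (if ¬ E i then (1:ℝ) else 0)
      = ∑ i, (w i - w i * (if E i then (1:ℝ) else 0)) := by
        refine Finset.sum_congr rfl fun i _ => ?_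
        by_cases h : E i
        · rw [if_neg (not_not.2 h), if_pos h]; ring
        · rw [if_pos h, if_neg h]; ring
    _ = _ := by rw [Finset.sum_sub_distrib, hw1]

/-- averaging -/
theorem exists_many {I C : Type} [Fintype I] [Fintype C] (w : I → ℝ) (hw0 : ∀ i, 0 ≤ w i)
    (hw1 : ∑ i, w i = 1) (bad : I → C → Prop) [∀ i c, Decidable (bad i c)] (ε : ℝ)
    (h : ∀ c, ∑ i, w i * (if bad i c then 1 else 0) ≤ ε) :
    ∃ i, (1 - ε) * Fintype.card C ≤ (Finset.univ.filter fun c => ¬ bad i c).card := by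
  classical
  by_contra hcon
  push Not at hcon
  have h1 : ∀ i, (Finset.univ.filter fun c => ¬ bad i c).card +
      ∑ c : C, (if bad i c then (1:ℝ) else 0) = Fintype.card C := by
    intro i
    have h2 : ((Finset.univ.filter fun c => ¬ bad i c).card : ℝ) =
        ∑ c : C, (if bad i c then (0:ℝ) else 1) := by
      rw [Finset.card_filter, Nat.cast_sum]
      refine Finset.sum_congr rfl fun c _ => ?_
      split_ifs <;> simp_all
    rw [h2, ← Finset.sum_add_distrib]
    have h3 : ∀ c : C, ((if bad i c then (0:ℝ) else 1) + if bad i c then (1:ℝ) else 0) = 1 := by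
      intro c
      split_ifs <;> simp
    simp [h3]
  have hpos : ∃ i, 0 < w i := by
    by_contra h4
    push Not at h4
    have h5 : ∑ i, w i ≤ 0 := Finset.sum_nonpos fun i _ => h4 i
    linarith
  have h6 : ∑ i, w i * ((Finset.univ.filter fun c => ¬ bad i c).card : ℝ) <
      ∑ i, w i * ((1 - ε) * Fintype.card C) := by
    obtain ⟨i0, hi0⟩ := hpos
    refine Finset.sum_lt_sum (fun i _ => mul_le_mul_of_nonneg_left (hcon i).le (hw0 i))
      ⟨i0, Finset.mem_univ _, mul_lt_mul_of_pos_left (hcon i0) hi0⟩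
  rw [← Finset.sum_mul, hw1, one_mul] at h6
  have h7 : ∑ i, w i * ((Finset.univ.filter fun c => ¬ bad i c).card : ℝ) =
      Fintype.card C - ∑ c : C, ∑ i, w i * (if bad i c then (1:ℝ) else 0) := by
    rw [Finset.sum_comm]
    have h8 : ∀ i, w i * ((Finset.univ.filter fun c => ¬ bad i c).card : ℝ) =
        w i * Fintype.card C - ∑ c : C, w i * (if bad i c then (1:ℝ) else 0) := by
      intro i
      rw [← Finset.mul_sum, ← mul_sub]
      congr 1
      linarith [h1 i]
    simp_rw [h8]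
    rw [Finset.sum_sub_distrib, ← Finset.sum_mul, hw1, one_mul]
  have h9 : ∑ c : C, ∑ i, w i * (if bad i c then (1:ℝ) else 0) ≤ ∑ _c : C, ε :=
    Finset.sum_le_sum fun c _ => h c
  rw [Finset.sum_const, Finset.card_univ, nsmul_eq_mul] at h9
  have h10 : (1 - ε) * (Fintype.card C : ℝ) = Fintype.card C - Fintype.card C * ε := by ring
  linarith

/-- Markov's inequality -/
theorem markov {I : Type} [Fintype I] (w : I → ℝ) (hw0 : ∀ i, 0 ≤ w i) (a : I → ℕ) (E t : ℝ)
    (ht : 0 < t) (h : ∑ i, w i * (a i : ℝ) ≤ E) [∀ i, Decidable (t < (a i : ℝ))] :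
    ∑ i, w i * (if t < (a i : ℝ) then 1 else 0) ≤ E / t := by
  rw [le_div_iff₀ ht, Finset.sum_mul]
  refine (Finset.sum_le_sum fun i _ => ?_).trans h
  rw [mul_assoc]
  refine mul_le_mul_of_nonneg_left ?_ (hw0 i)
  split_ifs with h1
  · rw [one_mul]
    exact h1.le
  · rw [zero_mul]
    positivity

/-- different elements of `K` are not near -/
def IsCode {C : Type} (near : C → C → Prop) (K : Finset C) : Prop :=
  ∀ c ∈ K, ∀ c' ∈ K, c' ≠ c → ¬ near c c'

/-- greedy codes -/
theorem exists_code {C : Type} (near : C → C → Prop)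
    (hrefl : ∀ c, near c c) (hsymm : ∀ c c', near c c' → near c' c) (Vb : ℕ) (G : Finset C)
    (hvol : ∀ c ∈ G, ∀ A ⊆ G, (∀ c' ∈ A, near c c') → A.card ≤ Vb) :
    ∃ K ⊆ G, (∀ c ∈ K, ∀ c' ∈ K, c' ≠ c → ¬ near c c') ∧ G.card ≤ Vb * K.card := by
  classical
  set S := G.powerset.filter fun K => IsCode near K with hS
  obtain ⟨K, hK, hmax⟩ := Finset.exists_max_image S Finset.card
    ⟨∅, by
      rw [hS, Finset.mem_filter]
      exact ⟨Finset.empty_mem_powerset G, fun c hc => absurd hc (Finset.notMem_empty c)⟩⟩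
  rw [hS, Finset.mem_filter, Finset.mem_powerset] at hK
  refine ⟨K, hK.1, hK.2, ?_⟩
  have hcov : G ⊆ K.biUnion fun k => G.filter fun c' => near k c' := by
    intro g hg
    rw [Finset.mem_biUnion]
    by_contra hcon
    push Not at hcon
    have hgK : g ∉ K := fun h => hcon g h (Finset.mem_filter.2 ⟨hg, hrefl g⟩)
    have hnew : insert g K ∈ S := by
      rw [hS, Finset.mem_filter, Finset.mem_powerset]
      refine ⟨Finset.insert_subset hg hK.1, ?_⟩
      intro c hc c' hc' hne hnear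
      rw [Finset.mem_insert] at hc hc'
      rcases hc with rfl | hc
      · rcases hc' with rfl | hc'
        · exact hne rfl
        · exact hcon c' hc' (Finset.mem_filter.2 ⟨hg, hsymm _ _ hnear⟩)
      · rcases hc' with rfl | hc'
        · exact hcon c hc (Finset.mem_filter.2 ⟨hg, hnear⟩)
        · exact hK.2 c hc c' hc' hne hnear
    have h1 := hmax _ hnew
    rw [Finset.card_insert_of_notMem hgK] at h1
    omega
  refine (Finset.card_le_card hcov).trans (Finset.card_biUnion_le.trans ?_)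
  calc ∑ k ∈ K, (G.filter fun c' => near k c').card ≤ ∑ _k ∈ K, Vb := by
        refine Finset.sum_le_sum fun k hk => ?_
        exact hvol k (hK.1 hk) _ (Finset.filter_subset _ _) fun c' hc' =>
          (Finset.mem_filter.1 hc').2
    _ = Vb * K.card := by rw [Finset.sum_const, smul_eq_mul, mul_comm]

/-- a large class with a common value -/
theorem exists_class {C : Type} (G : Finset C) (d : C → ℕ) (L : ℕ) (hd : ∀ c ∈ G, d c ≤ L) :
    ∃ D' ≤ L, ∃ G' ⊆ G, (∀ c ∈ G', d c = D') ∧ G.card ≤ (L + 1) * G'.card := by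
  classical
  by_contra hcon
  push Not at hcon
  have h1 : ∀ D' ≤ L, (L + 1) * (G.filter fun c => d c = D').card < G.card := by
    intro D' hD'
    exact hcon D' hD' _ (Finset.filter_subset _ _) fun c hc => (Finset.mem_filter.1 hc).2
  have h2 : G.card = ∑ D' ∈ Finset.range (L + 1), (G.filter fun c => d c = D').card := by
    rw [← Finset.card_eq_sum_card_fiberwise]
    intro c hc
    exact Finset.mem_coe.2 (Finset.mem_range.2 (Nat.lt_succ_of_le (hd c hc)))
  have h3 : (L + 1) * G.card < (L + 1) * G.card := by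
    calc (L + 1) * G.card
        = ∑ D' ∈ Finset.range (L + 1), (L + 1) * (G.filter fun c => d c = D').card := by
          rw [← Finset.mul_sum, ← h2]
      _ < ∑ _D' ∈ Finset.range (L + 1), G.card := by
          refine Finset.sum_lt_sum_of_nonempty ⟨0, by simp⟩ fun D' hD' => ?_
          exact h1 D' (Nat.lt_succ_iff.1 (Finset.mem_range.1 hD'))
      _ = (L + 1) * G.card := by rw [Finset.sum_const, Finset.card_range, smul_eq_mul]
  exact lt_irrefl _ h3

end comb

section
variable {F : Type} [Field F] {V Ya : Type} [DecidableEq V] [Fintype V]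

/-- CORE. A finite family of polynomials `f i`, with weights, and gadgets in it. -/
theorem core {I C Xt Yt : Type} [Fintype I] [Fintype C] [Fintype Xt] [DecidableEq Xt] [Fintype Yt]
    (w : I → ℝ) (hw0 : ∀ i, 0 ≤ w i) (hw1 : ∑ i, w i = 1) (f : I → MvPolynomial (V ⊕ Ya) F)
    (X : I → Xt → V) (Y : I → Yt → V) (Z : I → Finset V)
    (hinj : ∀ i, Function.Injective (Sum.elim (X i) (Y i)))
    (hX : ∀ i x, X i x ∉ Z i) (hY : ∀ i y, Y i y ∉ Z i)
    (M : C → Finset Xt) (Yc : C → Finset Yt) (T H : I → C → Finset V)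
    (hT : ∀ i c, ∀ e ∈ T i c, e ∈ Z i ∨ (∃ x ∈ M c, e = X i x) ∨ ∃ y ∈ Yc c, e = Y i y)
    (hH : ∀ i c e, (e ∈ Z i ∨ (∃ x, e = X i x) ∨ ∃ y ∈ Yc c, e = Y i y) → e ∈ H i c)
    (μ : I → C → (V ⊕ Ya) →₀ ℕ)
    (hμ : ∀ i c, restr (T i c) (f i) ≠ 0 →
      μ i c ∈ (f i).support ∧ CDET.sup (μ i c) ⊆ T i c)
    (ε1 ε2 ε3 β : ℝ) (hβ : 0 < β) (L : ℕ)
    (hyes' : ∀ c, Pr w (fun i => restr (T i c) (f i) = 0) ≤ ε1)
    (hno' : ∀ c, ∀ x ∈ M c, Pr w (fun i => restr (H i c \ {X i x}) (f i) ≠ 0) ≤ ε2)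
    (hk' : ∀ c, Pr w (fun i => L < ∑ y, μ i c (Sum.inl (Y i y))) ≤ ε3)
    (hε2 : 0 ≤ ε2)
    (near : C → C → Prop) (hrefl : ∀ c, near c c) (hsymm : ∀ c c', near c c' → near c' c)
    (Vb T0 : ℕ) (hvol : ∀ c, ∀ A : Finset C, (∀ c' ∈ A, near c c') → A.card ≤ Vb)
    (hdist : ∀ c c', ¬ near c c' → (T0 : ℝ) + β * (M c').card ≤ (M c' \ M c).card)
    {l0 : ℕ} {Q R : ℝ≥0∞} (hQ : Q < 1) (hR : ∀ i, ∀ D' ≤ L, SmallK (f i) D' l0 Q R)
    (hT0 : (Fintype.card C : ℝ≥0∞) * Q ^ T0 ≤ 1 / 2) :
    Q ^ l0 * ENNReal.ofReal ((1 - (ε1 + ε2 / β + ε3)) * Fintype.card C) ≤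
      2 * R * ((L + 1) * Vb : ℕ) := by
  classical
  obtain ⟨P1, hP1⟩ : ∃ P1 : I → C → Prop, ∀ i c, P1 i c ↔ restr (T i c) (f i) = 0 :=
    ⟨_, fun _ _ => Iff.rfl⟩
  obtain ⟨P2, hP2⟩ : ∃ P2 : I → C → Xt → Prop, ∀ i c x, P2 i c x ↔
      restr (H i c \ {X i x}) (f i) ≠ 0 := ⟨_, fun _ _ _ => Iff.rfl⟩
  have hyes : ∀ c, ∑ i, w i * (if P1 i c then 1 else 0) ≤ ε1 := by
    intro c
    have h := hyes' c
    simp_rw [← hP1] at h
    rwa [Pr_eq] at h
  have hno : ∀ c, ∀ x ∈ M c, ∑ i, w i * (if P2 i c x then 1 else 0) ≤ ε2 := by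
    intro c x hx
    have h := hno' c x hx
    simp_rw [← hP2] at h
    rwa [Pr_eq] at h
  have hk : ∀ c, ∑ i, w i * (if L < ∑ y, μ i c (Sum.inl (Y i y)) then 1 else 0) ≤ ε3 := by
    intro c
    have h := hk' c
    rwa [Pr_eq] at h
  -- the number of bad elements
  set bad : I → C → Finset Xt := fun i c => (M c).filter fun x => P2 i c x with hbad
  have hbadE : ∀ c, ∑ i, w i * ((bad i c).card : ℝ) ≤ ε2 * (M c).card := by
    intro c
    have h1 : ∀ i, w i * ((bad i c).card : ℝ) =
        ∑ x ∈ M c, w i * (if P2 i c x then (1:ℝ) else 0) := by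
      intro i
      rw [← Finset.mul_sum, hbad]
      simp only
      rw [Finset.card_filter, Nat.cast_sum]
      congr 1
      refine Finset.sum_congr rfl fun x _ => ?_
      split_ifs <;> simp
    simp_rw [h1]
    rw [Finset.sum_comm]
    calc ∑ x ∈ M c, ∑ i, w i * (if P2 i c x then (1:ℝ) else 0) ≤ ∑ _x ∈ M c, ε2 :=
          Finset.sum_le_sum fun x hx => hno c x hx
      _ = ε2 * (M c).card := by rw [Finset.sum_const, nsmul_eq_mul, mul_comm]
  have hbad2 : ∀ c, ∑ i, w i * (if β * (M c).card < ((bad i c).card : ℝ) then (1:ℝ) else 0) ≤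
      ε2 / β := by
    intro c
    rcases Finset.eq_empty_or_nonempty (M c) with hempty | hne
    · have h0 : ∀ i, w i * (if β * (M c).card < ((bad i c).card : ℝ) then (1:ℝ) else 0) = 0 := by
        intro i
        rw [if_neg, mul_zero]
        have h1 : (bad i c).card = 0 := by
          rw [hbad, Finset.card_eq_zero]
          simp [hempty]
        rw [h1, hempty]
        simp
      rw [Finset.sum_congr rfl fun i _ => h0 i, Finset.sum_const_zero]
      positivity
    have hMc : (0 : ℝ) < (M c).card := by exact_mod_cast hne.card_pos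
    have h1 := markov w hw0 (fun i => (bad i c).card) (ε2 * (M c).card) (β * (M c).card)
      (mul_pos hβ hMc) (hbadE c)
    rwa [mul_div_mul_right _ _ hMc.ne'] at h1
  -- the good choices
  set B : I → C → Prop := fun i c => P1 i c ∨ β * (M c).card < ((bad i c).card : ℝ) ∨
    L < ∑ y, μ i c (Sum.inl (Y i y)) with hB
  obtain ⟨i, hi⟩ := exists_many w hw0 hw1 B (ε1 + ε2 / β + ε3) (by
    intro c
    calc ∑ i, w i * (if B i c then (1:ℝ) else 0)
        ≤ ∑ i, (w i * (if P1 i c then (1:ℝ) else 0) +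
          w i * (if β * (M c).card < ((bad i c).card : ℝ) then (1:ℝ) else 0) +
          w i * (if L < ∑ y, μ i c (Sum.inl (Y i y)) then (1:ℝ) else 0)) := by
          refine Finset.sum_le_sum fun i _ => ?_
          rw [← mul_add, ← mul_add]
          refine mul_le_mul_of_nonneg_left ?_ (hw0 i)
          by_cases h1 : P1 i c <;> by_cases h2 : β * (M c).card < ((bad i c).card : ℝ) <;>
            by_cases h3 : L < ∑ y, μ i c (Sum.inl (Y i y)) <;>
            simp [hB, h1, h2, h3]
      _ ≤ ε1 + ε2 / β + ε3 := by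
          rw [Finset.sum_add_distrib, Finset.sum_add_distrib]
          exact add_le_add (add_le_add (hyes c) (hbad2 c)) (hk c))
  set G : Finset C := Finset.univ.filter fun c => ¬ B i c with hG
  have hGood : ∀ c ∈ G, restr (T i c) (f i) ≠ 0 ∧ ((bad i c).card : ℝ) ≤ β * (M c).card ∧
      ∑ y, μ i c (Sum.inl (Y i y)) ≤ L := by
    intro c hc
    rw [hG, Finset.mem_filter] at hc
    have h1 := hc.2
    simp only [hB, not_or, not_lt] at h1
    exact ⟨fun h => h1.1 ((hP1 i c).2 h), h1.2.1, h1.2.2⟩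
  obtain ⟨D', hD', G', hG', hG'D, hcard1⟩ := exists_class G
    (fun c => ∑ y, μ i c (Sum.inl (Y i y))) L (fun c hc => (hGood c hc).2.2)
  obtain ⟨K, hK, hKcode, hcard2⟩ := exists_code near hrefl hsymm Vb G'
    (fun c _ A _ hA => hvol c A hA)
  -- the bound for the code
  have hKG : ∀ c : K, c.1 ∈ G := fun c => hG' (hK c.2)
  have hb := code_bound (C := K) (f i) (X i) (Y i) (Z i) (hinj i) (hX i) (hY i)
    (fun c => M c.1 \ bad i c.1) (fun c => M c.1) (fun c => μ i c.1)
    (fun c => (hμ i c.1 (hGood c.1 (hKG c)).1).1)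
    (by
      intro c e he
      have h1 := (hμ i c.1 (hGood c.1 (hKG c)).1).2 he
      rcases hT i c.1 e h1 with h | h | ⟨y, _, h⟩
      · exact Or.inl h
      · exact Or.inr (Or.inl h)
      · exact Or.inr (Or.inr ⟨y, h⟩))
    (by
      intro c S hS hall x hx
      by_contra hxS
      rw [Finset.mem_sdiff] at hx
      apply hx.2
      rw [hbad]
      refine Finset.mem_filter.2 ⟨hx.1, (hP2 i c.1 x).2 ?_⟩
      intro h0
      apply hS
      have h1 : S ⊆ H i c.1 \ {X i x} := by
        intro e he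
        rw [Finset.mem_sdiff, Finset.mem_singleton]
        refine ⟨hH i c.1 e ?_, fun h => hxS (h ▸ he)⟩
        rcases hall e he with h | h | ⟨y, h, hy⟩
        · exact Or.inl h
        · exact Or.inr (Or.inl h)
        · refine Or.inr (Or.inr ⟨y, ?_, h⟩)
          have h2 : e ∈ CDET.sup (μ i c.1) := by
            rw [CDET.sup, Finset.mem_filter, h]
            exact ⟨Finset.mem_univ _, hy⟩
          have h3 := (hμ i c.1 (hGood c.1 (hKG c)).1).2 h2
          rcases hT i c.1 e h3 with h4 | ⟨x', _, h4⟩ | ⟨y', hy', h4⟩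
          · exact absurd (h ▸ h4) (hY i y)
          · have h5 : (Sum.inr y : Xt ⊕ Yt) = Sum.inl x' := hinj i (h.symm.trans h4)
            simp at h5
          · have h5 : (Sum.inr y : Xt ⊕ Yt) = Sum.inr y' := hinj i (h.symm.trans h4)
            rw [Sum.inr.injEq] at h5
            rw [h5]
            exact hy'
      have h2 : restr S (restr (H i c.1 \ {X i x}) (f i)) = restr S (f i) := by
        rw [restr_restr, Finset.inter_eq_left.2 h1]
      rw [← h2, h0]
      exact map_zero _)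
    D' (fun c => hG'D c.1 (hK c.2)) hQ (hR i D' hD') T0
    (by
      intro c c' hne
      have h1 := hKcode c.1 c.2 c'.1 c'.2 (fun h => hne (Subtype.ext h))
      have h2 := hdist c.1 c'.1 h1
      have h3 := (hGood c'.1 (hKG c')).2.1
      have h4 : (M c'.1 \ M c.1).card ≤
          ((M c'.1 \ bad i c'.1) \ M c.1).card + (bad i c'.1).card := by
        rw [← Nat.sub_le_iff_le_add]
        refine (Finset.le_card_sdiff _ _).trans (Finset.card_le_card ?_)
        intro x hx
        simp only [Finset.mem_sdiff] at hx ⊢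
        tauto
      have h5 : ((M c'.1 \ M c.1).card : ℝ) ≤
          ((M c'.1 \ bad i c'.1) \ M c.1).card + (bad i c'.1).card := by exact_mod_cast h4
      have h6 : (T0 : ℝ) ≤ ((M c'.1 \ bad i c'.1) \ M c.1).card := by linarith
      exact_mod_cast h6)
    (by
      refine le_trans ?_ hT0
      gcongr
      rw [Fintype.card_coe]
      exact Finset.card_le_univ K)
  rw [Fintype.card_coe] at hb
  have h8 : G.card ≤ (L + 1) * Vb * K.card := by
    calc G.card ≤ (L + 1) * G'.card := hcard1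
      _ ≤ (L + 1) * (Vb * K.card) := Nat.mul_le_mul_left _ hcard2
      _ = (L + 1) * Vb * K.card := by ring
  calc Q ^ l0 * ENNReal.ofReal ((1 - (ε1 + ε2 / β + ε3)) * Fintype.card C)
      ≤ Q ^ l0 * (G.card : ℝ≥0∞) := by
        gcongr
        rw [← ENNReal.ofReal_natCast]
        exact ENNReal.ofReal_le_ofReal hi
    _ ≤ Q ^ l0 * (((L + 1) * Vb * K.card : ℕ) : ℝ≥0∞) := by
        gcongr
    _ = (Q ^ l0 * (K.card : ℝ≥0∞)) * ((L + 1) * Vb : ℕ) := by
        rw [Nat.cast_mul]
        ring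
    _ ≤ 2 * R * ((L + 1) * Vb : ℕ) := by gcongr

end

end Pool.RT
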