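import Pool.Agent.Helper76.RT.Core

/-!
The core with decidable events as data (older interface, used in Helper59/SAT/RTC).
-/

set_option autoImplicit false

namespace Pool.RT

open Finset hiding sup
open MvPolynomial Pool.SDL Pool.Agent.SDet Pool.Agent.Helper76 Pool.Agent.Helper76.CDET
open scoped ENNReal BigOperators

section
variable {F : Type} [Field F] {V Ya : Type} [DecidableEq V] [Fintype V]

/-- CORE, older interface -/
theorem core_old {I C Xt Yt : Type} [Fintype I] [Fintype C] [Fintype Xt] [DecidableEq Xt] [Fintype Yt]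
    (w : I → ℝ) (hw0 : ∀ i, 0 ≤ w i) (hw1 : ∑ i, w i = 1) (f : I → MvPolynomial (V ⊕ Ya) F)
    (X : I → Xt → V) (Y : I → Yt → V) (Z : I → Finset V)
    (hinj : ∀ i, Function.Injective (Sum.elim (X i) (Y i)))
    (hX : ∀ i x, X i x ∉ Z i) (hY : ∀ i y, Y i y ∉ Z i)
    (M : C → Finset Xt) (Yc : C → Finset Yt) (T H : I → C → Finset V)
    (hT : ∀ i c, ∀ e ∈ T i c, e ∈ Z i ∨ (∃ x ∈ M c, e = X i x) ∨ ∃ y ∈ Yc c, e = Y i y)
    (hH : ∀ i c e, (e ∈ Z i ∨ (∃ x, e = X i x) ∨ ∃ y ∈ Yc c, e = Y i y) → e ∈ H i c)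
    (μ : I → C → (V ⊕ Ya) →₀ ℕ)
    (hμ : ∀ i c, restr (T i c) (f i) ≠ 0 →
      μ i c ∈ (f i).support ∧ CDET.sup (μ i c) ⊆ T i c)
    (ε1 ε2 ε3 β : ℝ) (hβ : 0 < β) (L : ℕ)
    (P1 : I → C → Prop) [∀ i c, Decidable (P1 i c)] (hP1 : ∀ i c, P1 i c ↔ restr (T i c) (f i) = 0)
    (P2 : I → C → Xt → Prop) [∀ i c x, Decidable (P2 i c x)]
    (hP2 : ∀ i c x, P2 i c x ↔ restr (H i c \ {X i x}) (f i) ≠ 0)
    (hyes : ∀ c, ∑ i, w i * (if P1 i c then 1 else 0) ≤ ε1)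
    (hno : ∀ c, ∀ x ∈ M c, ∑ i, w i * (if P2 i c x then 1 else 0) ≤ ε2)
    (hk : ∀ c, ∑ i, w i * (if L < ∑ y, μ i c (Sum.inl (Y i y)) then 1 else 0) ≤ ε3)
    (hMpos : ∀ c, (M c).Nonempty)
    (near : C → C → Prop) (hrefl : ∀ c, near c c) (hsymm : ∀ c c', near c c' → near c' c)
    (Vb T0 : ℕ) (hvol : ∀ c, ∀ A : Finset C, (∀ c' ∈ A, near c c') → A.card ≤ Vb)
    (hdist : ∀ c c', ¬ near c c' → (T0 : ℝ) + β * (M c').card ≤ (M c' \ M c).card)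
    {l0 : ℕ} {Q R : ℝ≥0∞} (hQ : Q < 1) (hR : ∀ i, ∀ D' ≤ L, SmallK (f i) D' l0 Q R)
    (hT0 : (Fintype.card C : ℝ≥0∞) * Q ^ T0 ≤ 1 / 2) :
    Q ^ l0 * ENNReal.ofReal ((1 - (ε1 + ε2 / β + ε3)) * Fintype.card C) ≤
      2 * R * ((L + 1) * Vb : ℕ) := by
  classical
  rcases isEmpty_or_nonempty C with hC | ⟨⟨c0⟩⟩
  · rw [Fintype.card_eq_zero, Nat.cast_zero, mul_zero, ENNReal.ofReal_zero, mul_zero]
    exact zero_le
  have hε2 : 0 ≤ ε2 := by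
    obtain ⟨x, hx⟩ := hMpos c0
    refine le_trans ?_ (hno c0 x hx)
    exact Finset.sum_nonneg fun i _ => mul_nonneg (hw0 i) (by split_ifs <;> norm_num)
  refine core w hw0 hw1 f X Y Z hinj hX hY M Yc T H hT hH μ hμ ε1 ε2 ε3 β hβ L ?_ ?_ ?_ hε2
    near hrefl hsymm Vb T0 hvol hdist hQ hR hT0
  · intro c
    refine le_trans (le_of_eq ?_) (hyes c)
    unfold Pr
    refine Finset.sum_congr rfl fun i _ => ?_
    by_cases h : P1 i c
    · rw [if_pos h, if_pos ((hP1 i c).1 h)]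
    · rw [if_neg h, if_neg fun h' => h ((hP1 i c).2 h')]
  · intro c x hx
    refine le_trans (le_of_eq ?_) (hno c x hx)
    unfold Pr
    refine Finset.sum_congr rfl fun i _ => ?_
    by_cases h : P2 i c x
    · rw [if_pos h, if_pos ((hP2 i c x).1 h)]
    · rw [if_neg h, if_neg fun h' => h ((hP2 i c x).2 h')]
  · intro c
    refine le_trans (le_of_eq ?_) (hk c)
    rw [Pr_eq]

end

end Pool.RT
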