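import Pool.Agent.Helper59.SAT.Cl

/-!
Random tests for k-SAT (MP_b6562f_lc): signed permutations of the variables.
-/

set_option autoImplicit false

namespace Pool.RT

open Finset Pool.SatDet
open scoped BigOperators

variable {n k : ℕ}

/-- signed permutations of the variables -/
abbrev Gam (n : ℕ) : Type := (Fin n → Bool) × Equiv.Perm (Fin n)

/-- action on literals -/
def glit (g : Gam n) (p : Fin n × Bool) : Fin n × Bool := (g.2 p.1, xor p.2 (g.1 (g.2 p.1)))

theorem glit_injective (g : Gam n) : Function.Injective (glit g) := by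
  rintro ⟨i, t⟩ ⟨j, u⟩ h
  unfold glit at h
  rw [Prod.mk.injEq] at h
  have h1 : i = j := g.2.injective h.1
  subst h1
  have h2 := h.2
  simp only [Bool.xor_left_inj] at h2
  rw [h2]

/-- action on assignments -/
def gas (g : Gam n) (a : Fin n → Bool) : Fin n → Bool := fun j => xor (a (g.2.symm j)) (g.1 j)

/-- action on clauses -/
def gcl (g : Gam n) (C : Clause n k) : Clause n k :=
  ⟨C.1.image (glit g), by
    constructor
    · rw [Finset.card_image_of_injective _ (glit_injective g)]
      exact C.2.1
    · rintro j ⟨h1, h2⟩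
      rw [Finset.mem_image] at h1 h2
      obtain ⟨⟨i, t⟩, hp, hi⟩ := h1
      obtain ⟨⟨i', t'⟩, hp', hi'⟩ := h2
      unfold glit at hi hi'
      simp only [Prod.mk.injEq] at hi hi'
      have h3 : i = i' := g.2.injective (hi.1.trans hi'.1.symm)
      subst h3
      refine C.2.2 i ?_
      have h4 := hi.2
      have h5 := hi'.2
      cases t <;> cases t' <;> cases hb : g.1 (g.2 i) <;> simp [hb] at h4 h5 <;>
        exact ⟨by assumption, by assumption⟩⟩

theorem gcl_injective (g : Gam n) : Function.Injective (gcl (k := k) g) := by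
  intro C C' h
  apply Subtype.ext
  have h1 : C.1.image (glit g) = C'.1.image (glit g) := congrArg Subtype.val h
  exact Finset.image_injective (glit_injective g) h1

theorem gcl_surjective (g : Gam n) : Function.Surjective (gcl (k := k) g) :=
  Finite.injective_iff_surjective.1 (gcl_injective g)

theorem sats_gcl (g : Gam n) (a : Fin n → Bool) (C : Clause n k) :
    Sats (gas g a) (gcl g C) ↔ Sats a C := by
  unfold Sats
  constructor
  · rintro ⟨p, hp, h⟩
    rw [gcl, Finset.mem_image] at hp
    obtain ⟨⟨i, t⟩, hq, rfl⟩ := hp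
    refine ⟨(i, t), hq, ?_⟩
    simp only [gas, glit, Equiv.symm_apply_apply, Bool.xor_left_inj] at h
    exact h
  · rintro ⟨⟨i, t⟩, hp, h⟩
    refine ⟨glit g (i, t), Finset.mem_image_of_mem _ hp, ?_⟩
    simp only [gas, glit, Equiv.symm_apply_apply, Bool.xor_left_inj]
    exact h

theorem gas_bijective (g : Gam n) : Function.Bijective (gas g) := by
  rw [← Finite.injective_iff_bijective]
  intro a a' h
  funext i
  have h1 := congrFun h (g.2 i)
  simp only [gas, Equiv.symm_apply_apply, Bool.xor_left_inj] at h1
  exact h1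

theorem supp_gcl (g : Gam n) (C : Clause n k) : supp (gcl g C) = (supp C).image g.2 := by
  unfold supp gcl
  rw [Finset.image_image, Finset.image_image]
  rfl

theorem card_img (g : Gam n) {s : Finset (Fin n)} (hs : s.card = k) : (s.image g.2).card = k := by
  rw [Finset.card_image_of_injective _ g.2.injective]
  exact hs

theorem gcl_vcl (g : Gam n) (a : Fin n → Bool) (s : Finset (Fin n)) (hs : s.card = k) :
    gcl g (vcl a s hs) = vcl (gas g a) (s.image g.2) (card_img g hs) := by
  have h1 : ¬ Sats (gas g a) (gcl g (vcl a s hs)) := by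
    rw [sats_gcl]
    exact not_sats_vcl a s hs
  have h2 := eq_vcl _ _ h1
  rw [h2]
  have h3 : supp (gcl g (vcl a s hs)) = s.image g.2 := by rw [supp_gcl, supp_vcl]
  apply Subtype.ext
  ext p
  rw [mem_vcl, mem_vcl, h3]

theorem exists_perm {s t : Finset (Fin n)} (h : s.card = t.card) :
    ∃ σ : Equiv.Perm (Fin n), s.image σ = t := by
  classical
  let e : {x // x ∈ s} ≃ {x // x ∈ t} := Finset.equivOfCardEq h
  refine ⟨e.extendSubtype, ?_⟩
  apply Finset.eq_of_subset_of_card_le
  · intro x hx
    obtain ⟨y, hy, rfl⟩ := Finset.mem_image.1 hx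
    exact e.extendSubtype_mem y hy
  · rw [Finset.card_image_of_injective _ (Equiv.injective _), h]

/-- a random permutation of a fixed set is a random set -/
theorem sum_perm (G : Finset (Fin n) → ℝ) {s0 : Finset (Fin n)} (hs0 : s0.card = k) :
    (n.choose k : ℝ) * ∑ σ : Equiv.Perm (Fin n), G (s0.image σ) =
      (n.factorial : ℝ) * ∑ s ∈ Finset.powersetCard k Finset.univ, G s := by
  classical
  have h1 : ∀ s ∈ Finset.powersetCard k (Finset.univ : Finset (Fin n)),
      ∑ σ : Equiv.Perm (Fin n), G (s.image σ) = ∑ σ : Equiv.Perm (Fin n), G (s0.image σ) := by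
    intro s hs
    rw [Finset.mem_powersetCard] at hs
    obtain ⟨τ, hτ⟩ := exists_perm (hs0.trans hs.2.symm)
    rw [← Equiv.sum_comp (Equiv.mulRight τ) (fun σ : Equiv.Perm (Fin n) => G (s0.image σ))]
    refine Finset.sum_congr rfl fun σ _ => ?_
    rw [← hτ, Finset.image_image]
    rfl
  have h2 : ∀ σ : Equiv.Perm (Fin n), ∑ s ∈ Finset.powersetCard k Finset.univ, G (s.image σ) =
      ∑ s ∈ Finset.powersetCard k Finset.univ, G s := by
    intro σ
    refine Finset.sum_bij (fun s _ => s.image σ) ?_ ?_ ?_ fun s _ => rfl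
    · intro s hs
      rw [Finset.mem_powersetCard] at hs ⊢
      exact ⟨Finset.subset_univ _, by
        rw [Finset.card_image_of_injective _ σ.injective]
        exact hs.2⟩
    · intro s _ t _ h
      exact Finset.image_injective σ.injective h
    · intro t ht
      rw [Finset.mem_powersetCard] at ht
      refine ⟨t.image σ.symm, ?_, ?_⟩
      · rw [Finset.mem_powersetCard]
        exact ⟨Finset.subset_univ _, by
          rw [Finset.card_image_of_injective _ σ.symm.injective]
          exact ht.2⟩
      · rw [Finset.image_image]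
        simp
  calc (n.choose k : ℝ) * ∑ σ : Equiv.Perm (Fin n), G (s0.image σ)
      = ∑ s ∈ Finset.powersetCard k (Finset.univ : Finset (Fin n)),
          ∑ σ : Equiv.Perm (Fin n), G (s.image σ) := by
        rw [Finset.sum_congr rfl h1, Finset.sum_const, Finset.card_powersetCard, Finset.card_univ,
          Fintype.card_fin, nsmul_eq_mul]
    _ = ∑ σ : Equiv.Perm (Fin n), ∑ s ∈ Finset.powersetCard k Finset.univ, G s := by
        rw [Finset.sum_comm]
        exact Finset.sum_congr rfl fun σ _ => h2 σ
    _ = _ := by
        rw [Finset.sum_const, Finset.card_univ, Fintype.card_perm, Fintype.card_fin, nsmul_eq_mul]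

/-- a random signed permutation -/
theorem sum_Gam (F : (Fin n → Bool) → Finset (Fin n) → ℝ) (a : Fin n → Bool)
    {s0 : Finset (Fin n)} (hs0 : s0.card = k) :
    (n.choose k : ℝ) * ∑ g : Gam n, F (gas g a) (s0.image g.2) =
      (n.factorial : ℝ) * ∑ a' : Fin n → Bool, ∑ s ∈ Finset.powersetCard k Finset.univ, F a' s := by
  classical
  have h1 : ∑ g : Gam n, F (gas g a) (s0.image g.2) =
      ∑ a' : Fin n → Bool, ∑ σ : Equiv.Perm (Fin n), F a' (s0.image σ) := by
    rw [Fintype.sum_prod_type_right, Finset.sum_comm (s := Finset.univ (α := Fin n → Bool))]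
    refine Finset.sum_congr rfl fun σ _ => ?_
    have hb : Function.Bijective (fun b : Fin n → Bool => gas (b, σ) a) := by
      rw [← Finite.injective_iff_bijective]
      intro b b' h
      funext j
      have h1 := congrFun h j
      simp only [gas, Bool.xor_right_inj] at h1
      exact h1
    exact Fintype.sum_bijective _ hb _ _ fun b => rfl
  rw [h1, Finset.mul_sum, Finset.mul_sum]
  exact Finset.sum_congr rfl fun a' _ => sum_perm (F a') hs0

end Pool.RT
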