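import Pool.Agent.Helper76.CDET.Loop
import Pool.Agent.Helper10.GT.Union

/-!
Random tests (MP_b6562f_lc): lower bound for the shifted space by supports, with two sets
`M' c ⊆ M c`: all monomials of `G c` contain `M' c`, one is inside `M c` (after helper10).
-/

set_option autoImplicit false

namespace Pool.RT

open Finset hiding sup
open MvPolynomial Pool.SDL Pool.Agent.SDet Pool.Agent.Helper76 Pool.Agent.Helper76.CDET
open scoped ENNReal BigOperators

section
variable {K : Type} [Field K] {σ E C : Type}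

/-- together with `M c`, the positive places of `u` contain no other set `M' c'` -/
def Good (M' M : C → Finset σ) (c : C) (u : σ → ℕ) : Prop :=
  ∀ c', c' ≠ c → ∃ s ∈ M' c', s ∉ M c ∧ u s = 0

variable [Fintype σ] [DecidableEq σ]

theorem coeff_rename_sup2 (g : MvPolynomial σ K) (μ : (σ ⊕ E) →₀ ℕ)
    (h : coeff μ (rename Sum.inl g) ≠ 0) :
    ∃ T : σ →₀ ℕ, coeff T g ≠ 0 ∧ T.support = sup μ := by
  obtain ⟨T, hT, hT'⟩ := coeff_rename_ne_zero _ _ _ h
  refine ⟨T, hT', ?_⟩
  ext s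
  rw [CDET.sup, Finset.mem_filter, Finsupp.mem_support_iff, ← hT,
    Finsupp.mapDomain_apply Sum.inl_injective]
  simp

/-- multiples with good supports are linearly independent -/
theorem indep [Finite E] [Finite C] (G : C → MvPolynomial σ K) (M' M : C → Finset σ)
    (h1 : ∀ c T, coeff T (G c) ≠ 0 → M' c ⊆ T.support)
    (h2 : ∀ c, ∃ T : σ →₀ ℕ, coeff T (G c) ≠ 0 ∧ T.support ⊆ M c) (l : ℕ) :
    LinearIndependent K (fun i : (Σ c : C, {ν : (σ ⊕ E) →₀ ℕ // ν.degree ≤ l ∧
      Good M' M c fun s => ν (Sum.inl s)}) =>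
      (monomial i.2.1 (1:K) * rename Sum.inl (G i.1) : MvPolynomial (σ ⊕ E) K)) := by
  classical
  have hfin : ∀ c, Finite {ν : (σ ⊕ E) →₀ ℕ // ν.degree ≤ l ∧ Good M' M c fun s => ν (Sum.inl s)} :=
    fun c => ((Finsupp.finite_of_degree_le (σ := σ ⊕ E) l).subset fun ν hν => hν.1).to_subtype
  have hfC : Fintype C := Fintype.ofFinite C
  have hfN : ∀ c, Fintype {ν : (σ ⊕ E) →₀ ℕ // ν.degree ≤ l ∧
    Good M' M c fun s => ν (Sum.inl s)} := fun c => Fintype.ofFinite _
  rw [Fintype.linearIndependent_iff]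
  intro g hg
  rintro ⟨c0, ν0⟩
  by_contra hne
  set S : Finset σ := M c0 ∪ sup ν0.1 with hS
  have hsum : ∑ c, (∑ ν : {ν : (σ ⊕ E) →₀ ℕ // ν.degree ≤ l ∧
      Good M' M c fun s => ν (Sum.inl s)}, monomial ν.1 (g ⟨c, ν⟩)) *
      (rename Sum.inl (G c) : MvPolynomial (σ ⊕ E) K) = 0 := by
    rw [← hg, Fintype.sum_sigma]
    refine Finset.sum_congr rfl fun c _ => ?_
    rw [Finset.sum_mul]
    refine Finset.sum_congr rfl fun ν _ => ?_
    rw [← smul_mul_assoc, smul_monomial, smul_eq_mul, mul_one]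
  have hsum2 := congrArg (restrHom K E S) hsum
  rw [map_sum, map_zero, Finset.sum_eq_single c0] at hsum2
  · rw [map_mul, mul_eq_zero] at hsum2
    rcases hsum2 with h | h
    · have h3 := congrArg (coeff ν0.1) h
      rw [restrHom_apply, coeff_restr, if_pos Finset.subset_union_right, coeff_sum, coeff_zero,
        Finset.sum_eq_single ν0] at h3
      · rw [coeff_monomial, if_pos rfl] at h3
        exact hne h3
      · intro ν _ hν
        rw [coeff_monomial, if_neg]
        intro h4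
        exact hν (Subtype.ext h4)
      · intro h4
        exact absurd (Finset.mem_univ _) h4
    · obtain ⟨T, hT, hT2⟩ := h2 c0
      have h3 := congrArg (coeff (Finsupp.mapDomain Sum.inl T)) h
      rw [restrHom_apply, coeff_restr, if_pos, coeff_zero,
        coeff_rename_mapDomain _ Sum.inl_injective] at h3
      · exact hT h3
      · intro s hs
        rw [CDET.sup, Finset.mem_filter, Finsupp.mapDomain_apply Sum.inl_injective] at hs
        rw [hS, Finset.mem_union]
        exact Or.inl (hT2 (Finsupp.mem_support_iff.2 hs.2))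
  · intro c _ hc
    rw [map_mul]
    have h3 : restrHom K E S (rename Sum.inl (G c)) = 0 := by
      rw [restrHom_apply]
      ext μ
      rw [coeff_restr, coeff_zero]
      split_ifs with h4
      · by_contra h5
        obtain ⟨T, hT, hT2⟩ := coeff_rename_sup2 (G c) μ h5
        have h6 := h1 c T hT
        rw [hT2] at h6
        obtain ⟨s, hs, hs2, hs3⟩ := ν0.2.2 c hc
        have h7 := h4 (h6 hs)
        rw [hS, Finset.mem_union] at h7
        rcases h7 with h7 | h7
        · exact hs2 h7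
        · rw [CDET.sup, Finset.mem_filter] at h7
          exact h7.2 hs3
      · rfl
    rw [h3, mul_zero]
  · intro h
    exact absurd (Finset.mem_univ _) h

theorem card_le_finrank [Finite E] [Fintype C] (G : C → MvPolynomial σ K) (M' M : C → Finset σ)
    (h1 : ∀ c T, coeff T (G c) ≠ 0 → M' c ⊆ T.support)
    (h2 : ∀ c, ∃ T : σ →₀ ℕ, coeff T (G c) ≠ 0 ∧ T.support ⊆ M c) (l : ℕ) :
    ∑ c, Nat.card {ν : (σ ⊕ E) →₀ ℕ // ν.degree ≤ l ∧ Good M' M c fun s => ν (Sum.inl s)} ≤
      Module.finrank K (Wl E G l) := by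
  classical
  have hfin : ∀ c, Finite {ν : (σ ⊕ E) →₀ ℕ // ν.degree ≤ l ∧ Good M' M c fun s => ν (Sum.inl s)} :=
    fun c => ((Finsupp.finite_of_degree_le (σ := σ ⊕ E) l).subset fun ν hν => hν.1).to_subtype
  have hfN : ∀ c, Fintype {ν : (σ ⊕ E) →₀ ℕ // ν.degree ≤ l ∧
    Good M' M c fun s => ν (Sum.inl s)} := fun c => Fintype.ofFinite _
  have hLI := indep (E := E) G M' M h1 h2 l
  have hP : ∀ i : (Σ c : C, {ν : (σ ⊕ E) →₀ ℕ // ν.degree ≤ l ∧
      Good M' M c fun s => ν (Sum.inl s)}),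
      (monomial i.2.1 (1:K) * rename Sum.inl (G i.1) : MvPolynomial (σ ⊕ E) K) ∈ Wl E G l :=
    fun i => Submodule.subset_span ⟨i.2.1, i.1, i.2.2.1, rfl⟩
  have hLI' : LinearIndependent K (fun i => (⟨_, hP i⟩ : Wl E G l)) :=
    LinearIndependent.of_comp (Wl E G l).subtype (by simpa [Function.comp_def] using hLI)
  have := finite_Wl (E := E) G l
  have h := hLI'.fintype_card_le_finrank
  rw [Fintype.card_sigma] at h
  refine le_trans (le_of_eq ?_) h
  exact Finset.sum_congr rfl fun c _ => Nat.card_eq_fintype_card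

/-- the series of the lower bound -/
theorem low_series (E : Type) [Fintype E] [Fintype C] (G : C → MvPolynomial σ K)
    (M' M : C → Finset σ) (h1 : ∀ c T, coeff T (G c) ≠ 0 → M' c ⊆ T.support)
    (h2 : ∀ c, ∃ T : σ →₀ ℕ, coeff T (G c) ≠ 0 ∧ T.support ⊆ M c)
    (Q : ℝ≥0∞) (hQ : Q < 1) [∀ c, DecidablePred fun u : σ → ℕ => Good M' M c u] :
    (1 - Q) ^ Fintype.card σ *
      ∑ c, ∑' u : σ → ℕ, (if Good M' M c u then Q ^ (∑ s, u s) else 0) ≤
    (1 - Q) ^ (Fintype.card σ + Fintype.card E + 1) *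
      ∑' l : ℕ, Q ^ l * (Module.finrank K (Wl E G l) : ℝ≥0∞) := by
  classical
  have h10 : (1 : ℝ≥0∞) - Q ≠ 0 := (tsub_pos_of_lt hQ).ne'
  have h1t : (1 : ℝ≥0∞) - Q ≠ ∞ := (tsub_le_self.trans_lt ENNReal.one_lt_top).ne
  set S1 := ∑ c, ∑' u : σ → ℕ, (if Good M' M c u then Q ^ (∑ s, u s) else 0) with hS1
  have hone : ∀ c, (∑' u : σ → ℕ, (if Good M' M c u then Q ^ (∑ s, u s) else 0)) *
      ((1 - Q)⁻¹) ^ Fintype.card E * (1 - Q)⁻¹ ≤
      ∑' l : ℕ, Q ^ l * (Nat.card {ν : (σ ⊕ E) →₀ ℕ // ν.degree ≤ l ∧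
        Good M' M c fun s => ν (Sum.inl s)} : ℝ≥0∞) := by
    intro c
    rw [← tsum_sum E (fun u : σ → ℕ => Good M' M c u) Q, ← ENNReal.tsum_mul_right]
    calc ∑' ν : (σ ⊕ E) →₀ ℕ, (if Good M' M c (fun s => ν (Sum.inl s)) then Q ^ ν.degree else 0) *
          (1 - Q)⁻¹
        ≤ ∑' ν : (σ ⊕ E) →₀ ℕ, ∑' l : ℕ,
            (if ν.degree ≤ l ∧ Good M' M c (fun s => ν (Sum.inl s)) then Q ^ l else 0) := by
          refine ENNReal.tsum_le_tsum fun ν => ?_
          by_cases hν : Good M' M c (fun s => ν (Sum.inl s))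
          · rw [if_pos hν]
            rw [← ENNReal.tsum_geometric, ← ENNReal.tsum_mul_left]
            calc ∑' l' : ℕ, Q ^ ν.degree * Q ^ l'
                ≤ ∑' l' : ℕ, (fun l : ℕ => (if ν.degree ≤ l ∧
                    Good M' M c (fun s => ν (Sum.inl s)) then Q ^ l else 0))
                    (l' + ν.degree) := by
                  refine ENNReal.tsum_le_tsum fun l' => ?_
                  simp only
                  rw [if_pos ⟨by omega, hν⟩, ← pow_add]
                  exact le_of_eq (congrArg _ (by omega))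
              _ ≤ _ := ENNReal.tsum_comp_le_tsum_of_injective
                  (f := fun l' : ℕ => l' + ν.degree) (fun a b h => by simpa using h) _
          · rw [if_neg hν, zero_mul]
            exact zero_le
      _ = ∑' l : ℕ, ∑' ν : (σ ⊕ E) →₀ ℕ,
            (if ν.degree ≤ l ∧ Good M' M c (fun s => ν (Sum.inl s)) then Q ^ l else 0) :=
          ENNReal.tsum_comm
      _ = ∑' l : ℕ, Q ^ l * (Nat.card {ν : (σ ⊕ E) →₀ ℕ // ν.degree ≤ l ∧
            Good M' M c fun s => ν (Sum.inl s)} : ℝ≥0∞) := by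
          refine tsum_congr fun l => ?_
          have hfin : Finite {ν : (σ ⊕ E) →₀ ℕ // ν.degree ≤ l ∧
              Good M' M c fun s => ν (Sum.inl s)} :=
            ((Finsupp.finite_of_degree_le (σ := σ ⊕ E) l).subset fun ν hν => hν.1).to_subtype
          rw [card_eq_tsum, ← ENNReal.tsum_mul_left]
          refine tsum_congr fun ν => ?_
          split_ifs <;> simp
  have hmain : S1 * ((1 - Q)⁻¹) ^ Fintype.card E * (1 - Q)⁻¹ ≤
      ∑' l : ℕ, Q ^ l * (Module.finrank K (Wl E G l) : ℝ≥0∞) := by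
    rw [hS1, Finset.sum_mul, Finset.sum_mul]
    refine (Finset.sum_le_sum fun c _ => hone c).trans ?_
    rw [← Summable.tsum_finsetSum fun c _ => ENNReal.summable]
    refine ENNReal.tsum_le_tsum fun l => ?_
    rw [← Finset.mul_sum, ← Nat.cast_sum]
    gcongr
    exact card_le_finrank G M' M h1 h2 l
  calc (1 - Q) ^ Fintype.card σ * S1
      = (1 - Q) ^ Fintype.card σ * S1 * ((1 - Q) ^ Fintype.card E * ((1 - Q)⁻¹) ^ Fintype.card E) *
          ((1 - Q) * (1 - Q)⁻¹) := by
        rw [← mul_pow, ENNReal.mul_inv_cancel h10 h1t, one_pow, mul_one, mul_one]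
    _ = (1 - Q) ^ (Fintype.card σ + Fintype.card E + 1) *
          (S1 * ((1 - Q)⁻¹) ^ Fintype.card E * (1 - Q)⁻¹) := by
        rw [pow_add, pow_add, pow_one]; ring
    _ ≤ (1 - Q) ^ (Fintype.card σ + Fintype.card E + 1) *
          ∑' l : ℕ, Q ^ l * (Module.finrank K (Wl E G l) : ℝ≥0∞) := by gcongr

end

end Pool.RT
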