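import Pool.Agent.Helper76.RT.Core
import Pool.Agent.Helper76.RT.Gam
import Pool.Agent.Helper59.SAT.Main
import Pool.Agent.Helper10.GT.Final

/-!
Random tests for k-SAT (MP_b6562f_lc): the gadget.
-/

set_option autoImplicit false
set_option linter.unusedSectionVars false

namespace Pool.RT

open Finset hiding sup
open MvPolynomial Pool.SDL Pool.Agent.SDet Pool.Agent.Helper76 Pool.Agent.Helper76.CDET
open Pool.SatDet
open scoped ENNReal BigOperators

variable {n k : ℕ}

section mon
variable {F : Type} [Field F] {V Ya : Type} [DecidableEq V] [Fintype V]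

open Classical in
/-- a monomial of `f` with edges in `S`, if there is one -/
noncomputable def mon (f : MvPolynomial (V ⊕ Ya) F) (S : Finset V) : (V ⊕ Ya) →₀ ℕ :=
  if h : restr S f ≠ 0 then
    (exists_sup f (fun S => restr S f ≠ 0) (fun _ => Iff.rfl) S h).choose else 0

theorem mon_spec (f : MvPolynomial (V ⊕ Ya) F) (S : Finset V) (h : restr S f ≠ 0) :
    mon f S ∈ f.support ∧ CDET.sup (mon f S) ⊆ S := by
  rw [mon, dif_pos h]
  exact (exists_sup f (fun S => restr S f ≠ 0) (fun _ => Iff.rfl) S h).choose_spec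

theorem mon_deg (f : MvPolynomial (V ⊕ Ya) F) {m : ℕ}
    (hdeg : ∀ μ ∈ f.support, ∑ e, μ (Sum.inl e) ≤ m) (S : Finset V) :
    ∑ e, mon f S (Sum.inl e) ≤ m := by
  by_cases h : restr S f ≠ 0
  · exact hdeg _ (mon_spec f S h).1
  · rw [mon, dif_neg h]
    simp

theorem mon_le (f : MvPolynomial (V ⊕ Ya) F) {d : ℕ}
    (hdeg : ∀ μ ∈ f.support, ∀ e, μ (Sum.inl e) ≤ d) (S : Finset V) (e : V) :
    mon f S (Sum.inl e) ≤ d := by
  by_cases h : restr S f ≠ 0
  · exact hdeg _ (mon_spec f S h).1 e
  · rw [mon, dif_neg h]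
    simp

theorem mon_zero (f : MvPolynomial (V ⊕ Ya) F) (S : Finset V) (e : V) (he : e ∉ S) :
    mon f S (Sum.inl e) = 0 := by
  by_cases h : restr S f ≠ 0
  · by_contra h1
    apply he
    apply (mon_spec f S h).2
    rw [CDET.sup, Finset.mem_filter]
    exact ⟨Finset.mem_univ _, h1⟩
  · rw [mon, dif_neg h]
    rfl

end mon

open Classical in
/-- the clauses violated by `a` -/
noncomputable def viol (k : ℕ) (a : Fin n → Bool) : Finset (Clause n k) :=
  Finset.univ.filter fun C => ¬ Sats a C

theorem mem_viol (a : Fin n → Bool) (C : Clause n k) : C ∈ viol k a ↔ ¬ Sats a C := by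
  classical
  rw [viol, Finset.mem_filter]
  simp

theorem card_viol' (a : Fin n → Bool) : (viol k a).card = n.choose k := by
  classical
  have h := card_viol (k := k) a (fun _ => True)
  simp only [and_true, Finset.filter_true, Finset.card_powersetCard, Finset.card_univ,
    Fintype.card_fin] at h
  rw [← h, viol]

/-- the clauses which may be absent -/
def XS (n k D : ℕ) : Type := {C : Clause n k // ¬ Dead D C ∧ ¬ IsBlk (k := k) D (supp C)}

/-- the derivative clauses -/
def YS (n k D : ℕ) : Type := {C : Clause n k // ¬ Dead D C ∧ IsBlk (k := k) D (supp C)}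

noncomputable instance (D : ℕ) : Fintype (XS n k D) := by
  classical
  unfold XS
  infer_instance

noncomputable instance (D : ℕ) : Fintype (YS n k D) := by
  classical
  unfold YS
  infer_instance

noncomputable instance (D : ℕ) : DecidableEq (XS n k D) := Classical.decEq _

section gadget
variable {D : ℕ} (hk : 0 < k) (hkn : k ≤ n) (hD : D * k ≤ n)

open Classical in
noncomputable def MS (c : Fin (D * k) → Bool) : Finset (XS n k D) :=
  Finset.univ.filter fun x => ¬ Sats (ext' D c : Fin n → Bool) x.1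

open Classical in
noncomputable def YcS (c : Fin (D * k) → Bool) : Finset (YS n k D) :=
  Finset.univ.filter fun y => ¬ Sats (ext' D c : Fin n → Bool) y.1

open Classical in
noncomputable def HS (c : Fin (D * k) → Bool) : Finset (Clause n k) :=
  Finset.univ.filter fun C => ¬ Dead D C ∧
    (IsBlk (k := k) D (supp C) → ¬ Sats (ext' D c : Fin n → Bool) C)

/-- the derivative clause of the block `b` -/
def phi (c : Fin (D * k) → Bool) (b : Fin D) : YS n k D :=
  ⟨vcl (ext' D c) (blk n k b) (card_blk hk hD b b.2),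
    not_dead c _ (not_sats_vcl _ _ _), ⟨b, supp_vcl _ _ _⟩⟩

theorem phi_injective (c : Fin (D * k) → Bool) : Function.Injective (phi hk hD c) := by
  intro b b' h
  have h1 := congrArg (fun y : YS n k D => supp y.1) h
  simp only [phi, supp_vcl] at h1
  exact Fin.ext (blk_injective hk hD b.2 h1)

theorem exists_phi (c : Fin (D * k) → Bool) (y : YS n k D)
    (hy : ¬ Sats (ext' D c : Fin n → Bool) y.1) : ∃ b, phi hk hD c b = y := by
  obtain ⟨b, hb⟩ := y.2.2
  refine ⟨b, Subtype.ext ?_⟩
  have h1 := eq_vcl _ _ hy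
  rw [h1]
  apply Subtype.ext
  ext p
  change p ∈ (vcl (ext' D c) (blk n k b) (card_blk hk hD b b.2)).1 ↔ _
  rw [mem_vcl, mem_vcl, hb]

include hk hkn hD in
/-- the only assignment -/
theorem not_satP (c : Fin (D * k) → Bool) (x : XS n k D) (hx : x ∈ MS c) :
    ¬ SatP n k (HS c \ {x.1}) := by
  classical
  rintro ⟨a, ha⟩
  have hforced := forced hk hkn hD c (HS c) a (fun C hC => (Finset.mem_sdiff.1 (ha C hC)).1)
    (by
      intro C hC
      rw [Ne, kp_none]
      exact (Finset.mem_filter.1 hC).2.1)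
    (by
      intro C hC z hz
      rw [kp_inr] at hz
      obtain ⟨rfl, hd, hb⟩ := hz
      have h1 := (Finset.mem_filter.1 hC).2.2 hb
      obtain ⟨b, hb2⟩ := exists_phi hk hD c ⟨C, hd, hb⟩ h1
      exact ⟨b, (congrArg Subtype.val hb2).symm⟩)
  subst hforced
  have h1 := ha x.1 (Finset.mem_filter.1 hx).2
  rw [Finset.mem_sdiff, Finset.mem_singleton] at h1
  exact h1.2 rfl

theorem satP_image (g : Gam n) (S : Finset (Clause n k)) [DecidableEq (Clause n k)]
    (h : SatP n k (S.image (gcl g))) : SatP n k S := by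
  obtain ⟨a, ha⟩ := h
  obtain ⟨a', rfl⟩ := (gas_bijective g).2 a
  refine ⟨a', fun C hC => ?_⟩
  have h1 := ha (gcl g C) (by rw [sats_gcl]; exact hC)
  obtain ⟨C', hC', h2⟩ := Finset.mem_image.1 h1
  rw [← gcl_injective g h2]
  exact hC'

/-- the sum over the derivative clauses -/
theorem sum_phi (c : Fin (D * k) → Bool) (h : YS n k D → ℕ)
    (h0 : ∀ y, Sats (ext' D c : Fin n → Bool) y.1 → h y = 0) :
    ∑ y, h y = ∑ b, h (phi hk hD c b) := by
  classical
  rw [← Finset.sum_image (s := Finset.univ) (f := h) (g := phi hk hD c)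
    (fun b _ b' _ hbb => phi_injective hk hD c hbb)]
  symm
  apply Finset.sum_subset (Finset.subset_univ _)
  intro y _ hy
  apply h0
  by_contra h1
  obtain ⟨b, hb⟩ := exists_phi hk hD c y h1
  exact hy (Finset.mem_image.2 ⟨b, Finset.mem_univ _, hb⟩)

theorem card_MS_le (c : Fin (D * k) → Bool) : (MS (n := n) c).card ≤ n.choose k := by
  classical
  rw [← card_viol' (k := k) (ext' D c : Fin n → Bool)]
  refine Finset.card_le_card_of_injOn (fun x => x.1) ?_ ?_
  · intro x hx
    rw [Finset.mem_coe, mem_viol]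
    exact (Finset.mem_filter.1 hx).2
  · intro x _ y _ h
    exact Subtype.ext h

theorem card_MS_sdiff (c c' : Fin (D * k) → Bool) :
    n.choose k - (n - (dif (n := n) (ext' D c) (ext' D c')).card).choose k -
      (dif (n := n) (ext' D c) (ext' D c')).card ≤ (MS (n := n) c' \ MS c).card := by
  classical
  refine (diff_ge D c c').trans ?_
  have h1 : ∑ x : Clause n k, (Mm D c' x - Mm D c x) =
      (Finset.univ.filter fun C : Clause n k => (¬ Sats (ext' D c' : Fin n → Bool) C ∧
        ¬ IsBlk (k := k) D (supp C)) ∧ Sats (ext' D c : Fin n → Bool) C).card := by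
    rw [Finset.card_filter]
    refine Finset.sum_congr rfl fun C _ => ?_
    unfold Mm
    by_cases h2 : ¬ Sats (ext' D c' : Fin n → Bool) C ∧ ¬ IsBlk (k := k) D (supp C)
    · rw [if_pos h2]
      by_cases h3 : Sats (ext' D c : Fin n → Bool) C
      · rw [if_neg (fun h => h.1 h3), if_pos ⟨h2, h3⟩]
      · rw [if_pos ⟨h3, h2.2⟩, if_neg (fun h => h3 h.2)]
    · rw [if_neg h2, Nat.zero_sub, if_neg (fun h => h2 h.1)]
  rw [h1]
  have h2 : ((MS (n := n) c' \ MS c).image fun x => x.1) =
      (Finset.univ.filter fun C : Clause n k => (¬ Sats (ext' D c' : Fin n → Bool) C ∧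
        ¬ IsBlk (k := k) D (supp C)) ∧ Sats (ext' D c : Fin n → Bool) C) := by
    ext C
    rw [Finset.mem_image, Finset.mem_filter]
    constructor
    · rintro ⟨x, hx, rfl⟩
      rw [Finset.mem_sdiff, MS, MS, Finset.mem_filter, Finset.mem_filter] at hx
      refine ⟨Finset.mem_univ _, ⟨hx.1.2, x.2.2⟩, ?_⟩
      by_contra h
      exact hx.2 ⟨Finset.mem_univ _, h⟩
    · rintro ⟨-, ⟨h3, h4⟩, h5⟩
      refine ⟨⟨C, not_dead c' C h3, h4⟩, ?_, rfl⟩
      refine Finset.mem_sdiff.2 ⟨Finset.mem_filter.2 ⟨Finset.mem_univ _, h3⟩, fun h => ?_⟩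
      exact (Finset.mem_filter.1 h).2 h5
  rw [← h2]
  exact Finset.card_image_le

end gadget

end Pool.RT
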