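import Pool.Agent.Helper76.RT.Sat

/-!
Random tests for k-SAT (MP_b6562f_lc): the main inequality.
-/

set_option autoImplicit false
set_option linter.unusedSectionVars false

namespace Pool.RT

open Finset hiding sup
open MvPolynomial Pool.SDL Pool.Agent.SDet Pool.Agent.Helper76 Pool.Agent.Helper76.CDET
open Pool.SatDet
open scoped ENNReal BigOperators

variable {n k : ℕ}

theorem ball {N t : ℕ} (c : Fin N → Bool) (A : Finset (Fin N → Bool))
    (hA : ∀ c' ∈ A, (dif c c').card < t) : A.card ≤ ∑ j ∈ range t, N.choose j := by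
  classical
  have h1 := sum_dif c (fun j => if j < t then (1:ℝ) else 0)
  have h2 : (A.card : ℝ) ≤ ∑ c' : Fin N → Bool, (if (dif c c').card < t then (1:ℝ) else 0) := by
    rw [Finset.card_eq_sum_ones, Nat.cast_sum]
    calc ∑ x ∈ A, ((1 : ℕ) : ℝ) = ∑ x ∈ A, (if (dif c x).card < t then (1:ℝ) else 0) := by
          refine Finset.sum_congr rfl fun x hx => ?_
          rw [if_pos (hA x hx), Nat.cast_one]
      _ ≤ _ := Finset.sum_le_sum_of_subset_of_nonneg (Finset.subset_univ _)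
          fun x _ _ => by split_ifs <;> norm_num
  have h3 : ∑ j ∈ range (N + 1), (N.choose j : ℝ) * (if j < t then (1:ℝ) else 0) ≤
      ∑ j ∈ range t, (N.choose j : ℝ) := by
    have h4 : ∀ j, (N.choose j : ℝ) * (if j < t then (1:ℝ) else 0) =
        if j ∈ range t then (N.choose j : ℝ) else 0 := by
      intro j
      by_cases h : j < t
      · rw [if_pos h, if_pos (Finset.mem_range.2 h), mul_one]
      · rw [if_neg h, if_neg (fun h5 => h (Finset.mem_range.1 h5)), mul_zero]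
    simp_rw [h4]
    rw [← Finset.sum_filter]
    exact Finset.sum_le_sum_of_subset_of_nonneg (fun j hj => (Finset.mem_filter.1 hj).2)
      fun j _ _ => by positivity
  have h4 : (A.card : ℝ) ≤ ((∑ j ∈ range t, N.choose j : ℕ) : ℝ) := by
    push_cast
    exact h2.trans (h1.le.trans h3)
  exact_mod_cast h4

section avg
variable {F : Type} [Field F] {Ya : Type} {D : ℕ}

/-- exponents of the chosen monomials -/
noncomputable def Fex (f : MvPolynomial (Clause n k ⊕ Ya) F) (a : Fin n → Bool)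
    (s : Finset (Fin n)) : ℝ :=
  open Classical in
  if hs : s.card = k then (mon f (viol k a) (Sum.inl (vcl a s hs)) : ℝ) else 0

theorem sum_Fex_le (f : MvPolynomial (Clause n k ⊕ Ya) F) {m : ℕ}
    (hdeg : ∀ μ ∈ f.support, ∑ e, μ (Sum.inl e) ≤ m) (a : Fin n → Bool) :
    ∑ s ∈ Finset.powersetCard k Finset.univ, Fex f a s ≤ m := by
  classical
  have h1 : ∑ s ∈ Finset.powersetCard k (Finset.univ : Finset (Fin n)), Fex f a s =
      ∑ s : {s : Finset (Fin n) // s.card = k},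
        (mon f (viol k a) (Sum.inl (vcl a s.1 s.2)) : ℝ) := by
    rw [Finset.sum_subtype (Finset.powersetCard k (Finset.univ : Finset (Fin n)))
      (p := fun s : Finset (Fin n) => s.card = k)
      (fun s => by rw [Finset.mem_powersetCard]; simp) (Fex f a)]
    refine Finset.sum_congr rfl fun s _ => ?_
    rw [Fex, dif_pos s.2]
  rw [h1, ← Nat.cast_sum, Nat.cast_le]
  refine le_trans ?_ (mon_deg f hdeg (viol k a))
  have hinj : Function.Injective (fun s : {s : Finset (Fin n) // s.card = k} =>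
      vcl a s.1 s.2) := by
    intro s t h
    have h2 := congrArg supp h
    simp only [supp_vcl] at h2
    exact Subtype.ext h2
  rw [← Finset.sum_image (s := Finset.univ) (f := fun e => mon f (viol k a) (Sum.inl e))
    (g := fun s : {s : Finset (Fin n) // s.card = k} => vcl a s.1 s.2)
    (fun s _ t _ h => hinj h)]
  exact Finset.sum_le_sum_of_subset (Finset.subset_univ _)

theorem avg_Fex (f : MvPolynomial (Clause n k ⊕ Ya) F) {m : ℕ}
    (hdeg : ∀ μ ∈ f.support, ∑ e, μ (Sum.inl e) ≤ m) (a : Fin n → Bool) {s0 : Finset (Fin n)}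
    (hs0 : s0.card = k) (hkn : k ≤ n) :
    ∑ g : Gam n, Fex f (gas g a) (s0.image g.2) ≤
      Fintype.card (Gam n) * ((m : ℝ) / n.choose k) := by
  classical
  have hN : (0 : ℝ) < n.choose k := by exact_mod_cast Nat.choose_pos hkn
  have h1 := sum_Gam (Fex f) a hs0
  have h2 : (n.choose k : ℝ) * ∑ g : Gam n, Fex f (gas g a) (s0.image g.2) ≤
      (n.factorial : ℝ) * ∑ _a' : Fin n → Bool, (m : ℝ) := by
    rw [h1]
    refine mul_le_mul_of_nonneg_left ?_ (by positivity)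
    exact Finset.sum_le_sum fun a' _ => sum_Fex_le f hdeg a'
  rw [Finset.sum_const, Finset.card_univ, nsmul_eq_mul] at h2
  have h3 : (Fintype.card (Gam n) : ℝ) = (n.factorial : ℝ) * Fintype.card (Fin n → Bool) := by
    rw [Fintype.card_prod, Fintype.card_perm, Fintype.card_fin, Nat.cast_mul, mul_comm]
  rw [h3, mul_div_assoc', le_div_iff₀ hN]
  nlinarith [h2]

/-- the total exponent in the derivative clauses -/
theorem sum_Y (hk : 0 < k) (hD : D * k ≤ n) (f : MvPolynomial (Clause n k ⊕ Ya) F) (g : Gam n)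
    (c : Fin (D * k) → Bool) :
    ((∑ y : YS n k D, mon f (viol k (gas g (ext' D c))) (Sum.inl (gcl g y.1)) : ℕ) : ℝ) =
      ∑ b : Fin D, Fex f (gas g (ext' D c)) ((blk n k b).image g.2) := by
  classical
  rw [sum_phi hk hD c (fun y => mon f (viol k (gas g (ext' D c))) (Sum.inl (gcl g y.1)))
    (fun y hy => mon_zero _ _ _ (by
      rw [mem_viol, sats_gcl]
      exact fun h => h hy))]
  rw [Nat.cast_sum]
  refine Finset.sum_congr rfl fun b _ => ?_
  have hc : (blk n k b).card = k := card_blk hk hD b b.2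
  rw [Fex, dif_pos (card_img g hc)]
  congr 2
  exact congrArg Sum.inl (gcl_vcl g (ext' D c) (blk n k b) hc)

end avg

section main
variable {F Ya Ω : Type} [Field F] [Fintype Ω] {D : ℕ}

/-- average over the signed permutations -/
theorem Pr_prod_le {Ω : Type} [Fintype Ω] (p : Ω → ℝ) (E : Ω × Gam n → Prop) (ε : ℝ)
    (h : ∀ g : Gam n, Pr p (fun ω => E (ω, g)) ≤ ε) :
    Pr (fun i : Ω × Gam n => p i.1 / Fintype.card (Gam n)) E ≤ ε := by
  classical
  have hGpos : (0 : ℝ) < Fintype.card (Gam n) := by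
    exact_mod_cast Fintype.card_pos
  rw [Pr_eq, Fintype.sum_prod_type_right]
  calc ∑ g : Gam n, ∑ ω, p ω / Fintype.card (Gam n) * (if E (ω, g) then (1:ℝ) else 0)
      = ∑ g : Gam n, Pr p (fun ω => E (ω, g)) / Fintype.card (Gam n) := by
        refine Finset.sum_congr rfl fun g _ => ?_
        rw [Pr_eq, Finset.sum_div]
        refine Finset.sum_congr rfl fun ω _ => ?_
        ring
    _ ≤ ∑ _g : Gam n, ε / Fintype.card (Gam n) := by
        gcongr with g
        exact h g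
    _ = ε := by
        rw [Finset.sum_const, Finset.card_univ, nsmul_eq_mul]
        field_simp

theorem hyes_i (p : Ω → ℝ) (hp1 : ∑ ω, p ω = 1) (f : Ω → MvPolynomial (Clause n k ⊕ Ya) F)
    (a : ℝ) (hyes : ∀ a₀ : Fin n → Bool, a ≤ Pr p fun ω => restr (viol k a₀) (f ω) ≠ 0)
    (c : Fin (D * k) → Bool) :
    Pr (fun i : Ω × Gam n => p i.1 / Fintype.card (Gam n))
      (fun i => restr (viol k (gas i.2 (ext' D c))) (f i.1) = 0) ≤ 1 - a := by
  refine Pr_prod_le p _ _ fun g => ?_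
  have h4 := hyes (gas g (ext' D c))
  have h5 := Pr_not p hp1 (fun ω => restr (viol k (gas g (ext' D c))) (f ω) = 0)
  have h6 : Pr p (fun ω => restr (viol k (gas g (ext' D c))) (f ω) ≠ 0) =
      1 - Pr p (fun ω => restr (viol k (gas g (ext' D c))) (f ω) = 0) := h5
  linarith

theorem hno_i (hk : 0 < k) (hkn : k ≤ n) (hD : D * k ≤ n) (p : Ω → ℝ)
    (f : Ω → MvPolynomial (Clause n k ⊕ Ya) F) (b : ℝ)
    (hno : ∀ S : Finset (Clause n k), ¬ SatP n k S → Pr p (fun ω => restr S (f ω) ≠ 0) ≤ b)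
    (c : Fin (D * k) → Bool) (x : XS n k D) (hx : x ∈ MS c) :
    Pr (fun i : Ω × Gam n => p i.1 / Fintype.card (Gam n))
      (fun i => restr ((HS c).image (gcl i.2) \ {gcl i.2 x.1}) (f i.1) ≠ 0) ≤ b := by
  refine Pr_prod_le p _ _ fun g => ?_
  have h := hno ((HS c).image (gcl g) \ {gcl g x.1}) (by
    intro hsat
    apply not_satP hk hkn hD c x hx
    apply satP_image g
    have h4 : (HS c \ {x.1}).image (gcl g) = (HS c).image (gcl g) \ {gcl g x.1} := by
      rw [Finset.image_sdiff _ _ (gcl_injective g), Finset.image_singleton]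
    rw [h4]
    exact hsat)
  exact h

theorem hk_i (hk : 0 < k) (hkn : k ≤ n) (hD : D * k ≤ n) (p : Ω → ℝ) (hp0 : ∀ ω, 0 ≤ p ω)
    (hp1 : ∑ ω, p ω = 1) (f : Ω → MvPolynomial (Clause n k ⊕ Ya) F) {m : ℕ}
    (hdeg : ∀ ω, ∀ μ ∈ (f ω).support, ∑ e, μ (Sum.inl e) ≤ m)
    (L : ℕ) (hL : 1 ≤ L) (ε3 : ℝ) (hε3 : 0 ≤ ε3)
    (h3 : (D ≤ L ∧ ∀ ω, ∀ μ ∈ (f ω).support, ∀ e, μ (Sum.inl e) ≤ 1) ∨
      (D * m : ℝ) / (n.choose k * L) ≤ ε3) (c : Fin (D * k) → Bool) :
    Pr (fun i : Ω × Gam n => p i.1 / Fintype.card (Gam n))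
      (fun i => L < ∑ y : YS n k D, mon (f i.1) (viol k (gas i.2 (ext' D c)))
        (Sum.inl (gcl i.2 y.1))) ≤ ε3 := by
  classical
  have hGpos : (0 : ℝ) < Fintype.card (Gam n) := by
    exact_mod_cast Fintype.card_pos
  rcases h3 with ⟨hDL, hml⟩ | h3
  · have h4 : ∀ i : Ω × Gam n, ¬ L < ∑ y : YS n k D,
        mon (f i.1) (viol k (gas i.2 (ext' D c))) (Sum.inl (gcl i.2 y.1)) := by
      intro i
      rw [not_lt, sum_phi hk hD c (fun y => mon (f i.1) (viol k (gas i.2 (ext' D c)))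
        (Sum.inl (gcl i.2 y.1))) (fun y hy => mon_zero _ _ _ (by
          rw [mem_viol, sats_gcl]
          exact fun h => h hy))]
      refine le_trans (Finset.sum_le_sum fun b _ => mon_le (f i.1) (hml i.1) _ _) ?_
      simpa using hDL
    rw [Pr_eq]
    refine le_trans (le_of_eq ?_) hε3
    refine Finset.sum_eq_zero fun i _ => ?_
    rw [if_neg (h4 i), mul_zero]
  · have hLpos : (0 : ℝ) < L := by exact_mod_cast hL
    have hN : (0 : ℝ) < n.choose k := by exact_mod_cast Nat.choose_pos hkn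
    have h4 : ∑ i : Ω × Gam n, p i.1 / Fintype.card (Gam n) *
        ((∑ y : YS n k D, mon (f i.1) (viol k (gas i.2 (ext' D c)))
        (Sum.inl (gcl i.2 y.1)) : ℕ) : ℝ) ≤ D * m / n.choose k := by
      have h5 : ∀ i : Ω × Gam n, p i.1 / Fintype.card (Gam n) *
          ((∑ y : YS n k D, mon (f i.1) (viol k (gas i.2 (ext' D c)))
          (Sum.inl (gcl i.2 y.1)) : ℕ) : ℝ) = p i.1 / Fintype.card (Gam n) *
          ∑ b : Fin D, Fex (f i.1) (gas i.2 (ext' D c)) ((blk n k b).image i.2.2) := by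
        intro i
        rw [sum_Y hk hD]
      rw [Finset.sum_congr rfl fun i _ => h5 i, Fintype.sum_prod_type]
      have h6 : ∀ ω, ∑ g : Gam n, p ω / Fintype.card (Gam n) *
          ∑ b : Fin D, Fex (f ω) (gas g (ext' D c)) ((blk n k b).image g.2) ≤
          p ω * (D * m / n.choose k) := by
        intro ω
        rw [← Finset.mul_sum, Finset.sum_comm]
        calc p ω / Fintype.card (Gam n) * ∑ b : Fin D, ∑ g : Gam n,
              Fex (f ω) (gas g (ext' D c)) ((blk n k b).image g.2)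
            ≤ p ω / Fintype.card (Gam n) * ∑ _b : Fin D,
              Fintype.card (Gam n) * ((m : ℝ) / n.choose k) := by
              refine mul_le_mul_of_nonneg_left (Finset.sum_le_sum fun b _ => ?_)
                (div_nonneg (hp0 ω) hGpos.le)
              exact avg_Fex (f ω) (hdeg ω) (ext' D c) (card_blk hk hD b b.2) hkn
          _ = p ω * (D * m / n.choose k) := by
              rw [Finset.sum_const, Finset.card_univ, Fintype.card_fin, nsmul_eq_mul]
              field_simp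
      refine (Finset.sum_le_sum fun ω _ => h6 ω).trans ?_
      rw [← Finset.sum_mul, hp1, one_mul]
    have h6 := markov (fun i : Ω × Gam n => p i.1 / Fintype.card (Gam n))
      (fun i => div_nonneg (hp0 _) hGpos.le)
      (fun i => ∑ y : YS n k D, mon (f i.1) (viol k (gas i.2 (ext' D c)))
        (Sum.inl (gcl i.2 y.1))) _ L hLpos h4
    rw [Pr_eq]
    refine le_trans (le_of_eq ?_) (h6.trans (le_trans (le_of_eq ?_) h3))
    · refine Finset.sum_congr rfl fun i _ => ?_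
      congr 1
      simp only [Nat.cast_lt]
    · rw [div_div]

theorem hinj_i (g : Gam n) : Function.Injective
    (Sum.elim (fun x : XS n k D => gcl g x.1) (fun y : YS n k D => gcl g y.1)) := by
  intro u v huv
  rcases u with x | y <;> rcases v with x' | y'
  · exact congrArg Sum.inl (Subtype.ext (gcl_injective g huv))
  · have h : x.1 = y'.1 := gcl_injective g huv
    exact absurd (h ▸ y'.2.2) x.2.2
  · have h : y.1 = x'.1 := gcl_injective g huv
    exact absurd (h ▸ y.2.2) x'.2.2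
  · exact congrArg Sum.inr (Subtype.ext (gcl_injective g huv))

theorem hT_i (g : Gam n) (c : Fin (D * k) → Bool) (e : Clause n k)
    (he : e ∈ viol k (gas g (ext' D c))) :
    e ∈ (∅ : Finset (Clause n k)) ∨ (∃ x ∈ MS c, e = gcl g (x : XS n k D).1) ∨
      ∃ y ∈ YcS c, e = gcl g (y : YS n k D).1 := by
  classical
  rw [mem_viol] at he
  obtain ⟨C, rfl⟩ := gcl_surjective g e
  rw [sats_gcl] at he
  have hd := not_dead c C he
  by_cases hblk : IsBlk (k := k) D (supp C)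
  · exact Or.inr (Or.inr ⟨⟨C, hd, hblk⟩, Finset.mem_filter.2 ⟨Finset.mem_univ _, he⟩, rfl⟩)
  · exact Or.inr (Or.inl ⟨⟨C, hd, hblk⟩, Finset.mem_filter.2 ⟨Finset.mem_univ _, he⟩, rfl⟩)

theorem hH_i (g : Gam n) (c : Fin (D * k) → Bool) (e : Clause n k)
    (he : e ∈ (∅ : Finset (Clause n k)) ∨ (∃ x : XS n k D, e = gcl g x.1) ∨
      ∃ y ∈ YcS c, e = gcl g (y : YS n k D).1) : e ∈ (HS c).image (gcl g) := by
  classical
  rcases he with he | ⟨x, rfl⟩ | ⟨y, hy, rfl⟩
  · exact absurd he (Finset.notMem_empty _)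
  · exact Finset.mem_image_of_mem _ (Finset.mem_filter.2 ⟨Finset.mem_univ _, x.2.1,
      fun h => absurd h x.2.2⟩)
  · exact Finset.mem_image_of_mem _ (Finset.mem_filter.2 ⟨Finset.mem_univ _, y.2.1,
      fun _ => (Finset.mem_filter.1 hy).2⟩)

theorem hdist_i (hD : D * k ≤ n) (β : ℝ) (hβ : 0 < β) (t T0 : ℕ)
    (hT0 : (T0 : ℝ) + β * n.choose k + (n - t).choose k + n ≤ n.choose k)
    (c c' : Fin (D * k) → Bool) (hfar : ¬ (dif c c').card < t) :
    (T0 : ℝ) + β * (MS (n := n) c').card ≤ (MS (n := n) c' \ MS c).card := by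
  rw [not_lt] at hfar
  have h4 := card_MS_sdiff (n := n) c c'
  rw [card_dif D hD] at h4
  have h5 : ((MS (n := n) c').card : ℝ) ≤ n.choose k := by exact_mod_cast card_MS_le c'
  have h6 : (n - (dif c c').card).choose k ≤ (n - t).choose k :=
    Nat.choose_le_choose k (by omega)
  have h7 : (dif c c').card ≤ n := by
    refine (Finset.card_le_univ _).trans ?_
    rw [Fintype.card_fin]
    exact hD
  have h8 : n.choose k ≤ (MS (n := n) c' \ MS c).card + (n - t).choose k + n := by omega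
  have h9 : (n.choose k : ℝ) ≤ (MS (n := n) c' \ MS c).card + (n - t).choose k + n := by
    exact_mod_cast h8
  have h10 : β * (MS (n := n) c').card ≤ β * n.choose k :=
    mul_le_mul_of_nonneg_left h5 hβ.le
  linarith

theorem hR_i {r m : ℕ} (f : MvPolynomial (Clause n k ⊕ Ya) F) (s : Fin r → ℕ)
    (hs : ∀ i, s i ≤ m)
    (A : ∀ i, Matrix (Fin (s i)) (Fin (s i)) (MvPolynomial (Clause n k ⊕ Ya) F))
    (hA : ∀ i p q, ∀ μ ∈ (A i p q).support, ∑ e, μ (Sum.inl e) ≤ 1)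
    (hf : f = ∑ i, (A i).det) (L D' : ℕ) (hD' : D' ≤ L) (q : ℝ) (hq0 : 0 < q) (hq1 : q < 1) :
    SmallK f D' 0 (ENNReal.ofReal q) ((r : ℝ≥0∞) * (ENNReal.ofReal (∑ j ∈ range (L + 1),
      (m * (1 - q)) ^ j / (j.factorial : ℝ))) ^ 2) := by
  classical
  have h1Q : (1 : ℝ≥0∞) - ENNReal.ofReal q = ENNReal.ofReal (1 - q) := by
    rw [ENNReal.ofReal_sub _ hq0.le, ENNReal.ofReal_one]
  have h4 := smallK_det f s hs A hA hf D' (ENNReal.ofReal q) (ofReal_lt_one hq1)
  have h5 : ∑ g : Fin (m - D') ↪o Fin m, (1 - ENNReal.ofReal q) ^ rho g ≤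
      ENNReal.ofReal (∑ j ∈ range (L + 1), (m * (1 - q)) ^ j / (j.factorial : ℝ)) := by
    rw [h1Q]
    have h6 : ∀ g : Fin (m - D') ↪o Fin m, (ENNReal.ofReal (1 - q)) ^ rho g =
        ENNReal.ofReal ((1 - q) ^ rho g) := fun g =>
      (ENNReal.ofReal_pow (by linarith) _).symm
    simp_rw [h6]
    rw [← ENNReal.ofReal_sum_of_nonneg (fun g _ => pow_nonneg (by linarith) _)]
    exact ENNReal.ofReal_le_ofReal (Pool.GT.sum_rho_le_exp hD' (1 - q) (by linarith))
  intro Xt Yt C _ _ κ yk hyk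
  obtain ⟨E, hE, h7⟩ := h4 Xt Yt C κ yk hyk
  refine ⟨E, hE, h7.trans ?_⟩
  gcongr

/-- the main inequality, general form -/
theorem sat_random_gen (hk : 0 < k) (hkn : k ≤ n)
    (hD : D * k ≤ n) (p : Ω → ℝ) (hp0 : ∀ ω, 0 ≤ p ω) (hp1 : ∑ ω, p ω = 1)
    (f : Ω → MvPolynomial (Clause n k ⊕ Ya) F) (a b β : ℝ) (hβ : 0 < β) (hb0 : 0 ≤ b)
    (hyes : ∀ a₀ : Fin n → Bool, a ≤ Pr p fun ω => restr (viol k a₀) (f ω) ≠ 0)
    (hno : ∀ S : Finset (Clause n k), ¬ SatP n k S → Pr p (fun ω => restr S (f ω) ≠ 0) ≤ b)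
    {m : ℕ} (hdeg : ∀ ω, ∀ μ ∈ (f ω).support, ∑ e, μ (Sum.inl e) ≤ m)
    (L : ℕ) (hL : 1 ≤ L) (ε3 : ℝ) (hε3 : 0 ≤ ε3)
    (h3 : (D ≤ L ∧ ∀ ω, ∀ μ ∈ (f ω).support, ∀ e, μ (Sum.inl e) ≤ 1) ∨
      (D * m : ℝ) / (n.choose k * L) ≤ ε3)
    (t T0 : ℕ) (ht : 1 ≤ t)
    (hT0 : (T0 : ℝ) + β * n.choose k + (n - t).choose k + n ≤ n.choose k)
    (q : ℝ) (hq0 : 0 < q) (hq1 : q < 1) (hQ : (2:ℝ) ^ (D * k) * q ^ T0 ≤ 1 / 2)
    (l0 : ℕ) (R : ℝ) (hR0 : 0 ≤ R)
    (hR : ∀ ω, ∀ D' ≤ L, SmallK (f ω) D' l0 (ENNReal.ofReal q) (ENNReal.ofReal R)) :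
    q ^ l0 * ((a - b / β - ε3) * 2 ^ (D * k)) ≤
      2 * R * ((L + 1) * ∑ j ∈ range t, ((D * k).choose j : ℝ)) := by
  classical
  have hGpos : (0 : ℝ) < Fintype.card (Gam n) := by
    exact_mod_cast Fintype.card_pos
  have hw1 : ∑ i : Ω × Gam n, p i.1 / Fintype.card (Gam n) = 1 := by
    rw [Fintype.sum_prod_type]
    simp only
    have h4 : ∀ ω, ∑ _g : Gam n, p ω / Fintype.card (Gam n) = p ω := by
      intro ω
      rw [Finset.sum_const, Finset.card_univ, nsmul_eq_mul]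
      field_simp
    rw [Finset.sum_congr rfl fun ω _ => h4 ω, hp1]
  have key := core (I := Ω × Gam n) (C := Fin (D * k) → Bool) (Xt := XS n k D)
    (Yt := YS n k D) (fun i => p i.1 / Fintype.card (Gam n))
    (fun i => div_nonneg (hp0 _) hGpos.le) hw1
    (fun i => f i.1) (fun i x => gcl i.2 x.1) (fun i y => gcl i.2 y.1) (fun _ => ∅)
    (fun i => hinj_i i.2)
    (fun _ _ => Finset.notMem_empty _) (fun _ _ => Finset.notMem_empty _)
    MS YcS (fun i c => viol k (gas i.2 (ext' D c))) (fun i c => (HS c).image (gcl i.2))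
    (fun i c e he => hT_i i.2 c e he) (fun i c e he => hH_i i.2 c e he)
    (fun i c => mon (f i.1) (viol k (gas i.2 (ext' D c))))
    (fun i c h => mon_spec _ _ h) (1 - a) b ε3 β hβ L
    (hyes_i p hp1 f a hyes) (hno_i hk hkn hD p f b hno)
    (hk_i hk hkn hD p hp0 hp1 f hdeg L hL ε3 hε3 h3)
    hb0 (fun c c' => (dif c c').card < t) (fun c => by
      have : dif c c = ∅ := by simp [dif]
      rw [this, Finset.card_empty]
      exact ht)
    (fun c c' h => by
      have : dif c' c = dif c c' := by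
        ext i
        simp [dif, eq_comm]
      rw [this]
      exact h)
    (∑ j ∈ range t, (D * k).choose j) T0 (fun c A' hA' => ball c A' hA')
    (hdist_i hD β hβ t T0 hT0)
    (ofReal_lt_one hq1) (fun i D' hD' => hR i.1 D' hD')
    (by
      have h4 : (Fintype.card (Fin (D * k) → Bool) : ℝ≥0∞) = ENNReal.ofReal (2 ^ (D * k)) := by
        rw [Fintype.card_fun, Fintype.card_bool, Fintype.card_fin]
        rw [ENNReal.ofReal_pow (by norm_num), Nat.cast_pow]
        congr 1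
        simp
      rw [h4, ← ENNReal.ofReal_pow hq0.le, ← ENNReal.ofReal_mul (by positivity)]
      refine (ENNReal.ofReal_le_ofReal hQ).trans (le_of_eq ?_)
      rw [ENNReal.ofReal_div_of_pos (by norm_num), ENNReal.ofReal_one]
      congr 1
      simp)
  have hcard : (Fintype.card (Fin (D * k) → Bool) : ℝ) = 2 ^ (D * k) := by
    rw [Fintype.card_fun, Fintype.card_bool, Fintype.card_fin]
    push_cast
    rfl
  rw [hcard, ← ENNReal.ofReal_pow hq0.le, ← ENNReal.ofReal_mul (by positivity)] at key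
  have h11 : 2 * ENNReal.ofReal R * (((L + 1) * ∑ j ∈ range t, (D * k).choose j : ℕ) : ℝ≥0∞) =
      ENNReal.ofReal (2 * R * ((L + 1) * ∑ j ∈ range t, ((D * k).choose j : ℝ))) := by
    rw [ENNReal.ofReal_mul (by positivity), ENNReal.ofReal_mul (by positivity)]
    congr 1
    · congr 1
      simp
    · rw [← ENNReal.ofReal_natCast]
      congr 1
      push_cast
      rfl
  rw [h11] at key
  have h12 := (ENNReal.ofReal_le_ofReal_iff (by positivity)).1 key
  refine le_trans (le_of_eq ?_) h12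
  ring

/-- sums of determinants -/
theorem sat_random (hk : 0 < k) (hkn : k ≤ n)
    (hD : D * k ≤ n) (p : Ω → ℝ) (hp0 : ∀ ω, 0 ≤ p ω) (hp1 : ∑ ω, p ω = 1)
    (f : Ω → MvPolynomial (Clause n k ⊕ Ya) F) (a b β : ℝ) (hβ : 0 < β) (hb0 : 0 ≤ b)
    (hyes : ∀ a₀ : Fin n → Bool, a ≤ Pr p fun ω => restr (viol k a₀) (f ω) ≠ 0)
    (hno : ∀ S : Finset (Clause n k), ¬ SatP n k S → Pr p (fun ω => restr S (f ω) ≠ 0) ≤ b)
    {r m : ℕ} (s : Ω → Fin r → ℕ) (hs : ∀ ω i, s ω i ≤ m)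
    (A : ∀ ω i, Matrix (Fin (s ω i)) (Fin (s ω i)) (MvPolynomial (Clause n k ⊕ Ya) F))
    (hA : ∀ ω i p q, ∀ μ ∈ (A ω i p q).support, ∑ e, μ (Sum.inl e) ≤ 1)
    (hf : ∀ ω, f ω = ∑ i, (A ω i).det)
    (L : ℕ) (hL : 1 ≤ L) (ε3 : ℝ) (hε3 : 0 ≤ ε3)
    (h3 : (D ≤ L ∧ ∀ ω, ∀ μ ∈ (f ω).support, ∀ e, μ (Sum.inl e) ≤ 1) ∨
      (D * m : ℝ) / (n.choose k * L) ≤ ε3)
    (t T0 : ℕ) (ht : 1 ≤ t)
    (hT0 : (T0 : ℝ) + β * n.choose k + (n - t).choose k + n ≤ n.choose k)
    (q : ℝ) (hq0 : 0 < q) (hq1 : q < 1) (hQ : (2:ℝ) ^ (D * k) * q ^ T0 ≤ 1 / 2) :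
    (a - b / β - ε3) * 2 ^ (D * k) ≤ 2 * (r * (∑ j ∈ range (L + 1),
      (m * (1 - q)) ^ j / (j.factorial : ℝ)) ^ 2) *
      ((L + 1) * ∑ j ∈ range t, ((D * k).choose j : ℝ)) := by
  classical
  have hSnn : 0 ≤ ∑ j ∈ range (L + 1), (m * (1 - q)) ^ j / (j.factorial : ℝ) :=
    Finset.sum_nonneg fun j _ => by
      have : 0 ≤ 1 - q := by linarith
      positivity
  have h := sat_random_gen hk hkn hD p hp0 hp1 f a b β hβ hb0 hyes hno
    (fun ω μ hμ => deg_sum_det (s ω) (hs ω) (A ω) (hA ω) μ (hf ω ▸ hμ)) L hL ε3 hε3 h3 t T0 ht hT0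
    q hq0 hq1 hQ 0 (r * (∑ j ∈ range (L + 1), (m * (1 - q)) ^ j / (j.factorial : ℝ)) ^ 2)
    (by positivity)
    (by
      intro ω D' hD'
      rw [ENNReal.ofReal_mul (by positivity), ENNReal.ofReal_natCast, ENNReal.ofReal_pow hSnn]
      exact hR_i (f ω) (s ω) (hs ω) (A ω) (hA ω) (hf ω) L D' hD' q hq0 hq1)
  rw [pow_zero, one_mul] at h
  exact h

end main

end Pool.RT
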