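import Pool.Agent.Helper76.RT.SatMain
import Pool.Agent.Helper76.CPF.Clique
import Pool.Agent.Helper10.GT.PfK

/-!
Random tests for k-SAT (MP_b6562f_lc): the main inequality for sums of Pfaffians with cofactors.
-/

set_option autoImplicit false
set_option linter.unusedSectionVars false

namespace Pool.RT

open Finset hiding sup
open MvPolynomial Pool.SDL Pool.Agent.SDet Pool.Agent.Helper76 Pool.Agent.Helper76.CDET
open Pool.SatDet
open scoped ENNReal BigOperators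

variable {n k : ℕ}

theorem SmallK.mono {F : Type} [Field F] {V Ya : Type} [DecidableEq V]
    {f : MvPolynomial (V ⊕ Ya) F} {D l0 l1 : ℕ} {Q R R' : ℝ≥0∞} (h : SmallK f D l0 Q R)
    (hQ : Q ≤ 1) (hl : l0 ≤ l1) (hR : R ≤ R') : SmallK f D l1 Q R' := by
  intro Xt Yt C _ _ κ yk hyk
  obtain ⟨E, hE, h1⟩ := h Xt Yt C κ yk hyk
  refine ⟨E, hE, le_trans (mul_le_mul' ?_ le_rfl) (h1.trans hR)⟩
  exact pow_le_pow_right_of_le_one' hQ hl

/-- the coefficients of the series -/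
theorem choose_up_le (M j J : ℕ) (hj : j ≤ 2 * J) (hJM : J < M) :
    ((2 * (M - J) - 1 + j).choose j : ℝ) ≤ (2 * M : ℝ) ^ j / (j.factorial : ℝ) := by
  have h0 : (0:ℝ) < (j.factorial : ℝ) := by exact_mod_cast Nat.factorial_pos j
  rw [le_div_iff₀ h0]
  have h1 : (2 * (M - J) - 1 + j).choose j * j.factorial = (2 * (M - J) - 1 + j).descFactorial j := by
    rw [Nat.descFactorial_eq_factorial_mul_choose, Nat.mul_comm]
  have h2 : (2 * (M - J) - 1 + j).descFactorial j ≤ (2 * M) ^ j := by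
    refine (Nat.descFactorial_le_pow _ _).trans (Nat.pow_le_pow_left ?_ j)
    omega
  rw [← h1] at h2
  exact_mod_cast h2

/-- sums of Pfaffians with cofactors have small shifted spaces, in real numbers -/
theorem hRpf_i {F Ya : Type} [Field F] {r m δ ν : ℕ} (hδ : 1 ≤ δ)
    (f : MvPolynomial (Clause n k ⊕ Ya) F) (hf : IsPfSum r m δ ν f) (L : ℕ) (hLm : L < m)
    (D' : ℕ) (hD' : D' ≤ L) (q : ℝ) (hq0 : 0 < q) (hq1 : q < 1) :
    SmallK f D' (ν + L * (δ - 1)) (ENNReal.ofReal q) (ENNReal.ofReal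
      (r * ∑ j ∈ range (2 * L + 1), (2 * m * (δ * (1 - q))) ^ j / (j.factorial : ℝ))) := by
  classical
  have hq1' : 0 ≤ 1 - q := by linarith
  have hQ1 : ENNReal.ofReal q < 1 := ofReal_lt_one hq1
  refine (GT.smallK_pf (lt_of_le_of_lt hD' hLm) hδ f hf _ hQ1).mono hQ1.le
    (Nat.add_le_add_left (Nat.mul_le_mul_right _ hD') _) ?_
  rw [ENNReal.ofReal_mul (by positivity), ENNReal.ofReal_natCast]
  refine mul_le_mul' le_rfl ?_
  have h1 : (1 : ℝ≥0∞) - ENNReal.ofReal q ^ δ = ENNReal.ofReal (1 - q ^ δ) := by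
    rw [← ENNReal.ofReal_pow hq0.le, ← ENNReal.ofReal_one, ← ENNReal.ofReal_sub _ (by positivity)]
  have hqδ : 0 ≤ 1 - q ^ δ := by
    have := pow_le_one₀ (n := δ) hq0.le hq1.le
    linarith
  have h2 : 1 - q ^ δ ≤ δ * (1 - q) := by
    have := one_add_mul_le_pow (a := q - 1) (by linarith) δ
    have h3 : (1 + (q - 1)) = q := by ring
    rw [h3] at this
    linarith
  rw [h1, ENNReal.ofReal_sum_of_nonneg fun j _ => by positivity]
  have hsub : range (2 * D' + 1) ⊆ range (2 * L + 1) := by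
    intro j hj
    rw [Finset.mem_range] at hj ⊢
    omega
  refine le_trans (Finset.sum_le_sum fun j hj => ?_) (Finset.sum_le_sum_of_subset hsub)
  rw [← ENNReal.ofReal_pow hqδ, ← ENNReal.ofReal_natCast, ← ENNReal.ofReal_mul (Nat.cast_nonneg _)]
  refine ENNReal.ofReal_le_ofReal ?_
  rw [Finset.mem_range] at hj
  calc ((2 * (m - D') - 1 + j).choose j : ℝ) * (1 - q ^ δ) ^ j
      ≤ ((2 * m : ℝ) ^ j / (j.factorial : ℝ)) * (δ * (1 - q)) ^ j :=
        mul_le_mul (choose_up_le m j D' (by omega) (lt_of_le_of_lt hD' hLm))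
          (pow_le_pow_left₀ hqδ h2 j) (by positivity) (by positivity)
    _ = _ := by rw [mul_pow (2 * m : ℝ)]; ring

/-- sums of Pfaffians with cofactors -/
theorem sat_random_pf (hk : 0 < k) (hkn : k ≤ n)
    {F : Type} [Field F] {Ya Ω : Type} [Fintype Ω] {D : ℕ}
    (hD : D * k ≤ n) (p : Ω → ℝ) (hp0 : ∀ ω, 0 ≤ p ω) (hp1 : ∑ ω, p ω = 1)
    (f : Ω → MvPolynomial (Clause n k ⊕ Ya) F) (a b β : ℝ) (hβ : 0 < β) (hb0 : 0 ≤ b)
    (hyes : ∀ a₀ : Fin n → Bool, a ≤ Pr p fun ω => restr (viol k a₀) (f ω) ≠ 0)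
    (hno : ∀ S : Finset (Clause n k), ¬ SatP n k S → Pr p (fun ω => restr S (f ω) ≠ 0) ≤ b)
    {r m δ ν : ℕ} (hδ : 1 ≤ δ) (hf : ∀ ω, IsPfSum r m δ ν (f ω))
    (L : ℕ) (hL : 1 ≤ L) (hLm : L < m) (ε3 : ℝ) (hε3 : 0 ≤ ε3)
    (h3 : (D ≤ L ∧ ∀ ω, ∀ μ ∈ (f ω).support, ∀ e, μ (Sum.inl e) ≤ 1) ∨
      (D * (ν + m * δ : ℕ) : ℝ) / (n.choose k * L) ≤ ε3)
    (t T0 : ℕ) (ht : 1 ≤ t)
    (hT0 : (T0 : ℝ) + β * n.choose k + (n - t).choose k + n ≤ n.choose k)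
    (q : ℝ) (hq0 : 0 < q) (hq1 : q < 1) (hQ : (2:ℝ) ^ (D * k) * q ^ T0 ≤ 1 / 2) :
    q ^ (ν + L * (δ - 1)) * ((a - b / β - ε3) * 2 ^ (D * k)) ≤
      2 * (r * ∑ j ∈ range (2 * L + 1), (2 * m * (δ * (1 - q))) ^ j / (j.factorial : ℝ)) *
      ((L + 1) * ∑ j ∈ range t, ((D * k).choose j : ℝ)) := by
  have hq1' : 0 ≤ 1 - q := by linarith
  exact sat_random_gen hk hkn hD p hp0 hp1 f a b β hβ hb0 hyes hno
    (fun ω μ hμ => deg_pfsum (hf ω) μ hμ) L hL ε3 hε3 h3 t T0 ht hT0 q hq0 hq1 hQ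
    (ν + L * (δ - 1)) _ (by positivity)
    fun ω D' hD' => hRpf_i hδ (f ω) (hf ω) L hLm D' hD' q hq0 hq1

end Pool.RT
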